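import Pool.Agent.MP_71ac24_nt.H14.Dilate

/-! Additive combinatorics and counting lemmas for the small height count. -/

namespace Pool.Agent.MP_75c3b6_nt.SH

open Finset Filter Pointwise

section group

variable {G : Type*} [AddCommGroup G] [DecidableEq G]

theorem bsg (g : ℕ → G) {Y : ℕ} {δ : ℝ} (hY : 0 < Y) (hδ : 0 < δ)
    (h : δ * (Y : ℝ) ^ 2 ≤ ∑ a ∈ Ioc 0 Y, (#{b ∈ Ioc 0 Y | g (a + b) = g a + g b} : ℝ)) :
    ∃ S ⊆ Ioc 0 Y, ∃ S' ⊆ Ioc 0 Y, δ * Y / 6 ≤ #S ∧ δ * Y / 4 ≤ #S' ∧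
      δ ^ 5 * #(S'.image g + S.image g) ≤ 24576 * Y := by
  have Y0 : (0 : ℝ) < Y := by exact_mod_cast hY
  obtain ⟨S, hS, S', hS', h1, h2, h3⟩ := MP_71ac24_nt.H14.bsg_paths (Ioc 0 Y) (Ioc 0 Y)
    (fun a b => g (a + b) = g a + g b) Y0 hδ (by simp) (by simp) h
  refine ⟨S, hS, S', hS', h1, h2, ?_⟩
  obtain ⟨Q, hQ⟩ : ∃ Q, Q = Ioc 0 (2 * Y) ×ˢ Ioc 0 (2 * Y) ×ˢ Ioc 0 (2 * Y) := ⟨_, rfl⟩
  have k1 : ∀ v ∈ S'.image g + S.image g, δ ^ 5 * (Y : ℝ) ^ 2 / 3072 ≤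
      (#{t ∈ Q | g t.1 - g t.2.1 + g t.2.2 = v} : ℝ) := fun v hv => by
    obtain ⟨u, hu, u', hu', rfl⟩ := mem_add.1 hv
    obtain ⟨b, hb, rfl⟩ := mem_image.1 hu
    obtain ⟨a, ha, rfl⟩ := mem_image.1 hu'
    refine (h3 a ha b hb).trans (Nat.cast_le.2 (card_le_card_of_injOn
      (fun p => (a + p.2, p.1 + p.2, p.1 + b)) (fun p hp => ?_) fun p _ p' _ e => ?_))
    · have a1 := mem_Ioc.1 (hS ha)
      have b1 := mem_Ioc.1 (hS' hb)
      simp only [coe_filter, mem_product, mem_Ioc, Set.mem_ofPred_eq, hQ] at hp ⊢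
      obtain ⟨⟨c1, c2⟩, e1, e2, e3⟩ := hp
      refine ⟨⟨by omega, by omega, by omega⟩, ?_⟩
      rw [e1, e2, e3]
      abel
    · simp only [Prod.mk.injEq] at e
      exact Prod.ext (by omega) (by omega)
  have k2 := MP_71ac24_nt.H14.bsg_le_sum _ _ _ k1
  rw [← Nat.cast_sum, sum_card_fiberwise_eq_card_filter] at k2
  have k3 := k2.trans (MP_71ac24_nt.H14.bsg_card_filter_le _ _)
  simp only [hQ, card_product, Nat.card_Ioc, tsub_zero, Nat.cast_mul, Nat.cast_ofNat] at k3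
  refine le_of_mul_le_mul_right ?_ (pow_pos Y0 2)
  linarith

theorem multi (F : Finset G) (m : ℕ) : #(m • F) ≤ (m + 1) ^ #F := by
  have : m • F ⊆ (Fintype.piFinset fun _ : F => range (m + 1)).image
      fun f => ∑ x : F, f x • (x : G) := by
    induction m with
    | zero =>
      intro v hv
      exact mem_image.2 ⟨fun _ => 0, by simp, by simpa [eq_comm] using hv⟩
    | succ m ih =>
      intro v hv
      rw [succ_nsmul] at hv
      obtain ⟨u, hu, x, hx, rfl⟩ := mem_add.1 hv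
      obtain ⟨f, hf, rfl⟩ := mem_image.1 (ih hu)
      refine mem_image.2 ⟨fun y => f y + if y = ⟨x, hx⟩ then 1 else 0,
        Fintype.mem_piFinset.2 fun y => ?_, ?_⟩
      · have := mem_range.1 (Fintype.mem_piFinset.1 hf y)
        rw [mem_range]
        split_ifs <;> omega
      · simp [add_nsmul, sum_add_distrib]
  simpa using (card_le_card this).trans card_image_le

theorem grow {Γ : Finset G} (h0 : Γ.Nonempty) {K : ℕ}
    (h1 : (#(Γ - Γ + (Γ - Γ) + Γ) : ℝ) ≤ K * #Γ) (h2 : #(Γ - Γ) ≤ K * #Γ) (m : ℕ) :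
    #((m + 1) • (Γ - Γ)) ≤ (m + 1) ^ K * (K * #Γ) := by
  obtain ⟨F, -, hF, h⟩ := ruzsa_covering_add h0 h1
  have k : ∀ m : ℕ, (m + 1) • (Γ - Γ) ⊆ m • F + (Γ - Γ) := fun m => by
    induction m with
    | zero => simp
    | succ m ih =>
      rw [succ_nsmul, succ_nsmul F, add_assoc]
      refine (add_subset_add_right ih).trans ?_
      rw [add_assoc]
      exact add_subset_add_left h
  exact (card_le_card (k m)).trans (card_add_le.trans (Nat.mul_le_mul ((multi F m).trans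
    (Nat.pow_le_pow_right m.succ_pos (by exact_mod_cast hF))) h2))

theorem plu {Γ Γ' : Finset G} (h0 : Γ'.Nonempty) {κ : ℝ} (h : (#(Γ' + Γ) : ℝ) ≤ κ * #Γ')
    (m n : ℕ) : (#(m • Γ - n • Γ) : ℝ) ≤ κ ^ (m + n) * #Γ' := by
  have := (NNRat.cast_le (K := ℝ)).2 (pluennecke_ruzsa_inequality_nsmul_sub_nsmul_add h0 Γ m n)
  push_cast at this
  have h1 : (0 : ℝ) < #Γ' := by exact_mod_cast h0.card_pos
  refine this.trans (mul_le_mul_of_nonneg_right (pow_le_pow_left₀ (by positivity) ?_ _) h1.le)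
  rwa [div_le_iff₀ h1]

theorem five (Γ : Finset G) : Γ - Γ + (Γ - Γ) + Γ = 3 • Γ - 2 • Γ := by
  simp only [sub_eq_add_neg, ← neg_nsmul]
  generalize -Γ = N
  abel

end group

theorem scale (P S : Finset ℕ) (r : ℕ → ℕ → Prop) [∀ a b, Decidable (r a b)] {W Y τ : ℕ} {t : ℝ}
    (hW : 0 < W) (hP : P ⊆ Ioc W (2 * W)) (hS : S ⊆ Ioc 0 Y) (ht : 0 ≤ t)
    (h1 : ∀ l ∈ P, ∀ l' ∈ P, ¬ r l l' → #{x ∈ Ioc 0 Y | l * x ∈ S ∧ l' * x ∈ S} ≤ τ)
    (h2 : ∀ l ∈ P, (#{l' ∈ P | r l l'} : ℝ) ≤ t) :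
    (W : ℝ) * (#{n ∈ S | ∃ l ∈ P, l ∣ n} : ℝ) ^ 2 ≤ Y * W ^ 2 * τ + Y ^ 2 * t := by
  obtain ⟨q, hq⟩ : ∃ q, q = Y / W := ⟨_, rfl⟩
  have q1 : q * W ≤ Y := hq ▸ Nat.div_mul_le_self Y W
  have q2 : q ≤ Y := hq ▸ Nat.div_le_self Y W
  have cP : (#P : ℝ) ≤ W := by
    have := card_le_card hP
    rw [Nat.card_Ioc] at this
    exact_mod_cast (by omega : #P ≤ W)
  have a1 : (#{n ∈ S | ∃ l ∈ P, l ∣ n} : ℝ) ≤ ∑ x ∈ Ioc 0 q, (#{l ∈ P | l * x ∈ S} : ℝ) := by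
    rw [← MP_71ac24_nt.H14.bsg_card_prod (Ioc 0 q) P fun x l => l * x ∈ S]
    refine Nat.cast_le.2 (le_trans (card_le_card fun n hn => ?_)
      (card_image_le (f := fun v : ℕ × ℕ => v.2 * v.1)))
    obtain ⟨hn, l, hl, x, rfl⟩ := mem_filter.1 hn
    have b1 := mem_Ioc.1 (hS hn)
    have b2 := mem_Ioc.1 (hP hl)
    refine mem_image.2 ⟨(x, l), mem_filter.2 ⟨mem_product.2 ⟨mem_Ioc.2
      ⟨Nat.pos_of_mul_pos_left b1.1, ?_⟩, hl⟩, hn⟩, rfl⟩
    rw [hq, Nat.le_div_iff_mul_le hW]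
    nlinarith
  have a2 : ∑ x ∈ Ioc 0 q, (#{l ∈ P | l * x ∈ S} : ℝ) ^ 2 =
      ∑ l ∈ P, ∑ l' ∈ P, (#{x ∈ Ioc 0 q | l * x ∈ S ∧ l' * x ∈ S} : ℝ) := by
    simp only [card_filter, sq, Nat.cast_sum, sum_mul_sum]
    rw [sum_comm]
    refine sum_congr rfl fun l _ => ?_
    rw [sum_comm]
    refine sum_congr rfl fun l' _ => sum_congr rfl fun x _ => ?_
    by_cases b : l * x ∈ S <;> by_cases b' : l' * x ∈ S <;> simp [b, b']
  have a3 : ∀ l ∈ P, ∑ l' ∈ P, (#{x ∈ Ioc 0 q | l * x ∈ S ∧ l' * x ∈ S} : ℝ) ≤ W * τ + t * q :=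
    fun l hl => by
    rw [← sum_filter_add_sum_filter_not P (r l), add_comm]
    refine add_le_add ((MP_71ac24_nt.H14.bsg_sum_le _ _ (τ : ℝ) fun l' hl' => ?_).trans ?_)
      ((MP_71ac24_nt.H14.bsg_sum_le _ _ (q : ℝ) fun l' _ => ?_).trans ?_)
    · exact Nat.cast_le.2 ((card_le_card (filter_subset_filter _ (Ioc_subset_Ioc_right q2))).trans
        (h1 l hl l' (mem_filter.1 hl').1 (mem_filter.1 hl').2))
    · exact mul_le_mul_of_nonneg_right ((MP_71ac24_nt.H14.bsg_card_filter_le _ _).trans cP)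
        τ.cast_nonneg
    · simpa using MP_71ac24_nt.H14.bsg_card_filter_le (Ioc 0 q) fun x => l * x ∈ S ∧ l' * x ∈ S
    · exact mul_le_mul_of_nonneg_right (h2 l hl) q.cast_nonneg
  have a4 := (MP_71ac24_nt.H14.bsg_sum_le _ _ _ a3).trans
    (mul_le_mul_of_nonneg_right cP (by positivity))
  have a5 := (pow_le_pow_left₀ (by positivity) a1 2).trans sq_sum_le_card_mul_sum_sq
  rw [a2, Nat.card_Ioc, tsub_zero] at a5
  have a6 := a5.trans (mul_le_mul_of_nonneg_left a4 q.cast_nonneg)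
  have a7 : (q : ℝ) * W ≤ Y := by exact_mod_cast q1
  have a8 : ((q : ℝ) * W) ^ 2 ≤ Y ^ 2 := pow_le_pow_left₀ (by positivity) a7 2
  have W0 : (0 : ℝ) ≤ W := W.cast_nonneg
  calc _ ≤ W * (q * (W * (W * τ + t * q))) := mul_le_mul_of_nonneg_left a6 W0
    _ = q * W * W ^ 2 * τ + (q * W) ^ 2 * t := by ring
    _ ≤ _ := by gcongr

theorem tk (P : Finset ℕ) (hP : ∀ l ∈ P, l.Prime) {Y : ℕ} (hY : #P ≤ Y) {lam : ℝ}
    (hl : lam = ∑ l ∈ P, 1 / (l : ℝ)) (h0 : 0 < lam) :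
    (#{n ∈ Ioc 0 Y | ¬ ∃ l ∈ P, l ∣ n} : ℝ) * lam ≤ 3 * Y := by
  obtain ⟨w, hw⟩ : ∃ w : ℕ → ℝ, w = fun n => ∑ l ∈ P, if l ∣ n then 1 else 0 := ⟨_, rfl⟩
  have c : ∀ d : ℕ, ∑ n ∈ Ioc 0 Y, (if d ∣ n then 1 else 0 : ℝ) = (Y / d : ℕ) := fun d => by
    rw [← Nat.Ioc_filter_dvd_card_eq_div, card_filter]
    push_cast
    rfl
  have a1 : Y * lam - Y ≤ ∑ n ∈ Ioc 0 Y, w n := by
    simp only [hw]
    rw [sum_comm]
    have : ∀ l ∈ P, Y * (1 / (l : ℝ)) - 1 ≤ ∑ n ∈ Ioc 0 Y, (if l ∣ n then 1 else 0 : ℝ) :=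
      fun l h => by
      have := Nat.lt_floor_add_one ((Y : ℝ) / l)
      rw [Nat.floor_div_eq_div] at this
      rw [c, mul_one_div]
      linarith
    refine le_trans ?_ (sum_le_sum this)
    have : (#P : ℝ) ≤ Y := by exact_mod_cast hY
    rw [sum_sub_distrib, ← mul_sum, ← hl, sum_const, nsmul_eq_mul]
    linarith
  have a2 : ∑ n ∈ Ioc 0 Y, w n ^ 2 ≤ Y * lam ^ 2 + Y * lam := by
    simp only [hw, sq, sum_mul_sum, hl]
    simp only [mul_sum, ← sum_add_distrib]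
    rw [sum_comm]
    refine sum_le_sum fun l h => ?_
    rw [sum_comm]
    have : ∀ l' ∈ P, ∑ n ∈ Ioc 0 Y, (if l ∣ n then 1 else 0 : ℝ) * (if l' ∣ n then 1 else 0) ≤
        Y * (1 / (l : ℝ) * (1 / l')) + if l = l' then Y * (1 / (l : ℝ)) else 0 := fun l' h' => by
      split_ifs with e
      · subst e
        have : ∀ n, (if l ∣ n then 1 else 0 : ℝ) * (if l ∣ n then 1 else 0) =
          if l ∣ n then 1 else 0 := fun n => by split_ifs <;> simp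
        simp only [this, c]
        have := Nat.cast_div_le (α := ℝ) (m := Y) (n := l)
        rw [mul_one_div (Y : ℝ) l]
        exact this.trans (le_add_of_nonneg_left (by positivity))
      · have co := (Nat.coprime_primes (hP l h) (hP l' h')).2 e
        have : ∀ n, (if l ∣ n then 1 else 0 : ℝ) * (if l' ∣ n then 1 else 0) =
            if l * l' ∣ n then 1 else 0 := fun n => by
          by_cases b : l * l' ∣ n
          · simp [b, dvd_of_mul_right_dvd b, dvd_of_mul_left_dvd b]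
          · by_cases b1 : l ∣ n <;> by_cases b2 : l' ∣ n <;> simp [b, b1, b2]
            exact b (co.mul_dvd_of_dvd_of_dvd b1 b2)
        simp only [this, c]
        refine Nat.cast_div_le.trans (le_of_eq ?_)
        push_cast
        ring
    refine (sum_le_sum this).trans (le_of_eq ?_)
    rw [sum_add_distrib, sum_ite_eq, if_pos h]
  have a3 : (#{n ∈ Ioc 0 Y | ¬ ∃ l ∈ P, l ∣ n} : ℝ) * lam ^ 2 ≤ ∑ n ∈ Ioc 0 Y, (w n - lam) ^ 2 := by
    refine (MP_71ac24_nt.H14.bsg_le_sum _ (fun n => (w n - lam) ^ 2) _ fun n hn => ?_).trans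
      (sum_le_sum_of_subset_of_nonneg (filter_subset _ _) fun _ _ _ => sq_nonneg _)
    have : w n = 0 := by
      rw [hw]
      exact sum_eq_zero fun l h => if_neg fun e => (mem_filter.1 hn).2 ⟨l, h, e⟩
    simp [this]
  simp only [sub_sq, sum_add_distrib, sum_sub_distrib, ← sum_mul, ← mul_sum, sum_const,
    Nat.card_Ioc, tsub_zero, nsmul_eq_mul] at a3
  refine le_of_mul_le_mul_right ?_ h0
  nlinarith [mul_le_mul_of_nonneg_right a1 h0.le]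

theorem lev {t k p W : ℕ} (hk : 2 ≤ k) (hW : 0 < W) (h1 : t.choose k ≤ p) (h2 : p ^ 2 ≤ W ^ (k + 1)) :
    (t + 1 - k) ^ 4 ≤ W ^ 3 * k ^ 4 := by
  have a1 : (t + 1 - k) ^ k ≤ k ^ k * p := (Nat.pow_sub_le_descFactorial t k).trans (by
    rw [Nat.descFactorial_eq_factorial_mul_choose]
    exact Nat.mul_le_mul k.factorial_le_pow h1)
  refine (Nat.pow_le_pow_iff_left (n := k) (by omega)).1 ?_
  calc ((t + 1 - k) ^ 4) ^ k = ((t + 1 - k) ^ k) ^ 4 := by ring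
    _ ≤ (k ^ k * p) ^ 4 := Nat.pow_le_pow_left a1 4
    _ = (p ^ 2) ^ 2 * (k ^ 4) ^ k := by ring
    _ ≤ (W ^ 3) ^ k * (k ^ 4) ^ k := Nat.mul_le_mul_right _ ((Nat.pow_le_pow_left h2 2).trans (by
      rw [← pow_mul, ← pow_mul]
      exact Nat.pow_le_pow_right hW (by omega)))
    _ = _ := by rw [mul_pow]

end Pool.Agent.MP_75c3b6_nt.SH
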