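import Pool.Agent.MP_75c3b6_nt.SH.A
import Pool.Agent.MP_48b1c3_nt.H54.Mertens

/-! Solutions of small height of the binomial congruence are rare. -/

namespace Pool.Agent.MP_75c3b6_nt.SH

open Finset Filter Pointwise

/-- the Teichmueller lift modulo `p ^ 2` -/
def g (p x : ℕ) : ZMod (p ^ 2) := (x : ZMod (p ^ 2)) ^ p

def PR (a b : ℕ) : Finset ℕ := (Ioc a b).filter Nat.Prime

def U (S P : Finset ℕ) : Finset ℕ := {n ∈ S | ∃ l ∈ P, l ∣ n}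

def Z (Y : ℕ) (P : Finset ℕ) : Finset ℕ := {n ∈ Ioc 0 Y | ¬ ∃ l ∈ P, l ∣ n}

theorem fer {p : ℕ} (hp : p.Prime) (x : ℤ) : (p : ℤ) ∣ x ^ p - x := by
  have := Fact.mk hp
  refine (ZMod.intCast_zmod_eq_zero_iff_dvd _ p).1 ?_
  push_cast
  rw [ZMod.pow_card, sub_self]

theorem zero_iff (p : ℕ) (z : ℤ) : (z : ZMod (p ^ 2)) = 0 ↔ (p : ℤ) ^ 2 ∣ z := by
  rw [ZMod.intCast_zmod_eq_zero_iff_dvd, Nat.cast_pow]

theorem lift {p : ℕ} {a b : ℤ} (h : (p : ℤ) ∣ a - b) :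
    (a : ZMod (p ^ 2)) ^ p = (b : ZMod (p ^ 2)) ^ p := by
  have := (zero_iff p _).2 (dvd_sub_pow_of_dvd_sub h 1)
  rw [pow_one] at this
  push_cast at this
  exact sub_eq_zero.1 this

theorem eq_of {p x y : ℕ} (hp : p.Prime) (hx : x < p) (hy : y < p)
    (h : (p : ℤ) ∣ (x : ℤ) ^ p - (y : ℤ) ^ p) : x = y := by
  have : (p : ℤ) ∣ (x : ℤ) - y := by
    refine (dvd_add (dvd_sub h (fer hp x)) (fer hp y)).trans (dvd_of_eq ?_)
    ring
  exact ((Nat.modEq_iff_dvd.2 this).eq_of_lt_of_lt hy hx).symm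

theorem fib {p Y K l l' : ℕ} (hp : p.Prime) (hY : Y < p) {S : Finset ℕ} (hS : S ⊆ Ioc 0 Y)
    (h0 : S.Nonempty) (hK : ∀ m : ℕ, #((m + 1) • (S.image (g p) - S.image (g p))) ≤
      (m + 1) ^ K * (K * #(S.image (g p)))) (hD : ¬ (l : ZMod (p ^ 2)) * g p l' = l' * g p l) :
    #{x ∈ Ioc 0 Y | l * x ∈ S ∧ l' * x ∈ S} ≤ (l' + l + 1) ^ K * K := by
  obtain ⟨s₀, hs₀⟩ := id h0
  obtain ⟨D, hD'⟩ : ∃ D : ℤ, D = l' * (l : ℤ) ^ p - l * (l' : ℤ) ^ p := ⟨_, rfl⟩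
  have D1 : (p : ℤ) ∣ D := by
    refine (dvd_sub ((fer hp l).mul_left l') ((fer hp l').mul_left l)).trans (dvd_of_eq ?_)
    rw [hD']
    ring
  have D2 : ¬ (p : ℤ) ^ 2 ∣ D := fun h => hD (by
    have := (zero_iff p _).2 h
    rw [hD'] at this
    push_cast at this
    exact (sub_eq_zero.1 this).symm)
  have mem : ∀ a ∈ S, ∀ b ∈ S, g p a - g p b ∈ S.image (g p) - S.image (g p) :=
    fun a ha b hb => sub_mem_sub (mem_image_of_mem _ ha) (mem_image_of_mem _ hb)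
  have k := card_le_card_of_injOn (s := S ×ˢ {x ∈ Ioc 0 Y | l * x ∈ S ∧ l' * x ∈ S})
    (t := (l' + l + 1) • (S.image (g p) - S.image (g p)))
    (fun v => g p v.1 + g p v.2 * D - (l' - l + 1) * g p s₀) (fun v hv => ?_) fun v hv v' hv' e => ?_
  · rw [card_product] at k
    have := (k.trans (hK _)).trans (Nat.mul_le_mul_left _ (Nat.mul_le_mul_left _ card_image_le))
    refine Nat.le_of_mul_le_mul_left (this.trans (le_of_eq ?_)) h0.card_pos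
    ring
  · obtain ⟨a, b⟩ := mem_product.1 hv
    obtain ⟨-, b1, b2⟩ := mem_filter.1 b
    rw [succ_nsmul, add_nsmul]
    have := add_mem_add (add_mem_add (nsmul_mem_nsmul (n := l') (mem _ b1 _ hs₀))
      (nsmul_mem_nsmul (n := l) (mem _ hs₀ _ b2))) (mem _ a _ hs₀)
    refine Set.mem_of_eq_of_mem ?_ (mem_coe.2 this)
    simp only [g, hD', nsmul_eq_mul]
    push_cast
    ring
  · obtain ⟨a, b⟩ := mem_product.1 hv
    obtain ⟨a', b'⟩ := mem_product.1 hv'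
    have c := (mem_Ioc.1 (hS a)).2
    have c' := (mem_Ioc.1 (hS a')).2
    have d := (mem_Ioc.1 (mem_filter.1 b).1).2
    have d' := (mem_Ioc.1 (mem_filter.1 b').1).2
    have e1 : (p : ℤ) ^ 2 ∣ ((v.1 : ℤ) ^ p - (v'.1 : ℤ) ^ p) + ((v.2 : ℤ) ^ p - (v'.2 : ℤ) ^ p) * D := by
      refine (zero_iff p _).1 ?_
      simp only [g] at e
      push_cast
      linear_combination e
    have e2 : v.1 = v'.1 := eq_of hp (by omega) (by omega)
      ((dvd_add_left (D1.mul_left _)).1 ((dvd_pow_self _ two_ne_zero).trans e1))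
    rw [e2, sub_self, zero_add] at e1
    obtain ⟨d0, rfl⟩ := D1
    have p0 : (p : ℤ) ≠ 0 := by exact_mod_cast hp.ne_zero
    rw [sq, mul_left_comm, mul_dvd_mul_iff_left p0] at e1
    rw [sq, mul_dvd_mul_iff_left p0] at D2
    exact Prod.ext e2 (eq_of hp (by omega) (by omega)
      (((Nat.prime_iff_prime_int.1 hp).dvd_or_dvd e1).resolve_right D2))

theorem level {p l W k : ℕ} (hp : p.Prime) (hl : l.Coprime p) {T : Finset ℕ}
    (hT : ∀ q ∈ T, q.Prime ∧ q ≤ W ∧ (l : ZMod (p ^ 2)) * g p q = q * g p l) (hk : W ^ k < p ^ 2) :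
    (#T).choose k ≤ p := by
  rw [← card_powersetCard, ← card_range p]
  have a : ∀ S ∈ powersetCard k T, ∏ q ∈ S, q < p ^ 2 ∧ (∏ q ∈ S, q).primeFactors = S ∧
      (l : ZMod (p ^ 2)) ^ k * g p (∏ q ∈ S, q) = (∏ q ∈ S, q : ℕ) * g p l ^ k := fun S hS => by
    obtain ⟨h1, h2⟩ := mem_powersetCard.1 hS
    refine ⟨(prod_le_pow_card _ _ W fun q hq => (hT q (h1 hq)).2.1).trans_lt (h2 ▸ hk),
      Nat.primeFactors_prod fun q hq => (hT q (h1 hq)).1, ?_⟩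
    have := prod_congr rfl fun q hq => (hT q (h1 hq)).2.2
    simpa only [prod_mul_distrib, prod_const, h2, g, Nat.cast_prod, prod_pow] using this
  refine card_le_card_of_injOn (fun S => (∏ q ∈ S, q) % p)
    (fun S _ => mem_coe.2 (mem_range.2 (Nat.mod_lt _ hp.pos))) fun S hS S' hS' e => ?_
  obtain ⟨a1, a2, a3⟩ := a S hS
  obtain ⟨b1, b2, b3⟩ := a S' hS'
  have e1 : g p (∏ q ∈ S', q) = g p (∏ q ∈ S, q) := by
    simpa only [Int.cast_natCast, g] using lift (Nat.modEq_iff_dvd.1 e)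
  rw [e1, a3] at b3
  have u : IsUnit (g p l ^ k) :=
    (((ZMod.isUnit_iff_coprime l (p ^ 2)).2 (hl.pow_right 2)).pow p).pow k
  rw [← a2, ← b2, ((ZMod.natCast_eq_natCast_iff _ _ _).1 (u.mul_right_cancel b3)).eq_of_lt_of_lt a1 b1]

theorem cls {p L W l : ℕ} {γ : ℝ} (hp : p.Prime) (hL : p < 2 ^ L) (hW : 2 * W < p) (γ0 : 0 < γ)
    (γ1 : γ ≤ 1) (h1 : 32768 ≤ γ ^ 8 * L) (h2 : L ^ 13 ≤ W) (hl : l ∈ PR W (2 * W)) :
    (#{q ∈ PR W (2 * W) | (l : ZMod (p ^ 2)) * g p q = q * g p l} : ℝ) ≤ (γ / L) ^ 2 * W / 2 := by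
  obtain ⟨t, ht⟩ : ∃ t, t = #{q ∈ PR W (2 * W) | (l : ZMod (p ^ 2)) * g p q = q * g p l} := ⟨_, rfl⟩
  have l1 := mem_Ioc.1 (mem_filter.1 hl).1
  have g8 : γ ^ 8 ≤ 1 := pow_le_one₀ γ0.le γ1
  have L1 : (32768 : ℝ) ≤ L := h1.trans (mul_le_of_le_one_left L.cast_nonneg g8)
  have p2 : 0 < p ^ 2 := pow_pos hp.pos 2
  obtain ⟨k, hk⟩ : ∃ k, k = Nat.log (2 * W) (p ^ 2 - 1) := ⟨_, rfl⟩
  have W2 : (2 * W) ^ 2 < p ^ 2 := Nat.pow_lt_pow_left hW two_ne_zero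
  have W0 : 0 < W := by omega
  have k1 : (2 * W) ^ k ≤ p ^ 2 - 1 := hk ▸ Nat.pow_log_le_self _ (by
    have : 0 < (2 * W) ^ 2 := by positivity
    omega)
  have k2 : p ^ 2 - 1 < (2 * W) ^ (k + 1) := hk ▸ Nat.lt_pow_succ_log_self (by omega) _
  have k3 : 2 ≤ k := hk ▸ Nat.le_log_of_pow_le (by omega) (by omega)
  have k4 : k ≤ 2 * L := by
    refine (Nat.pow_le_pow_iff_right one_lt_two).1 ?_
    have := Nat.pow_le_pow_left (show 2 ≤ 2 * W by omega) k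
    have := Nat.pow_lt_pow_left hL two_ne_zero
    rw [mul_comm 2 L, pow_mul]
    omega
  have a := lev (W := 2 * W) k3 (by omega) (level (k := k) (W := 2 * W) hp
    ((Nat.coprime_primes (mem_filter.1 hl).2 hp).2 (by omega))
    (T := {q ∈ PR W (2 * W) | (l : ZMod (p ^ 2)) * g p q = q * g p l})
    (fun q hq => ⟨(mem_filter.1 (mem_filter.1 hq).1).2,
      (mem_Ioc.1 (mem_filter.1 (mem_filter.1 hq).1).1).2, (mem_filter.1 hq).2⟩) (by omega)) (by omega)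
  rw [← ht] at a ⊢
  have a1 : ((t + 1 - k : ℕ) : ℝ) ^ 4 ≤ (2 * W) ^ 3 * (2 * L) ^ 4 := by
    exact_mod_cast a.trans (Nat.mul_le_mul_left _ (Nat.pow_le_pow_left k4 4))
  have a2 : (t : ℝ) ≤ (t + 1 - k : ℕ) + 2 * L := by exact_mod_cast (by omega : t ≤ t + 1 - k + 2 * L)
  have h2' : (L : ℝ) ^ 13 ≤ W := by exact_mod_cast h2
  have L0 : (0 : ℝ) < L := by linarith
  have a3 : 32768 * (L : ℝ) ^ 12 ≤ γ ^ 8 * W :=
    calc _ ≤ γ ^ 8 * L * (L : ℝ) ^ 12 := by gcongr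
      _ = γ ^ 8 * (L : ℝ) ^ 13 := by ring
      _ ≤ _ := by gcongr
  have a4 : ((t + 1 - k : ℕ) : ℝ) ≤ (γ / L) ^ 2 * W / 4 := by
    refine le_of_pow_le_pow_left₀ four_ne_zero (by positivity) (a1.trans ?_)
    have : ((γ / L) ^ 2 * W / 4) ^ 4 = γ ^ 8 * W * W ^ 3 / (256 * L ^ 8) := by field_simp; ring
    rw [this, le_div_iff₀ (by positivity)]
    calc _ = 32768 * (L : ℝ) ^ 12 * W ^ 3 := by ring
      _ ≤ _ := by gcongr
  have a5 : 2 * (L : ℝ) ≤ (γ / L) ^ 2 * W / 4 := by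
    have : (γ / L) ^ 2 * W / 4 = γ ^ 2 * W / (4 * L ^ 2) := by field_simp
    rw [this, le_div_iff₀ (by positivity)]
    have b1 : γ ^ 8 * W ≤ γ ^ 2 * W :=
      mul_le_mul_of_nonneg_right (pow_le_pow_of_le_one γ0.le γ1 (by norm_num)) W.cast_nonneg
    have b2 : (L : ℝ) ^ 3 ≤ L ^ 12 := pow_le_pow_right₀ (by linarith) (by norm_num)
    have b3 : (0 : ℝ) ≤ L ^ 12 := by positivity
    nlinarith
  linarith

theorem mert : ∃ C : ℝ, ∀ a B : ℕ, 2 ≤ a → 1 ≤ B →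
    Real.log B - C ≤ ∑ l ∈ PR a (a ^ B), 1 / (l : ℝ) := by
  obtain ⟨C, -, hC⟩ := MP_48b1c3_nt.H54.mertens2
  refine ⟨2 * C, fun a B ha hB => ?_⟩
  have e : ∀ y : ℕ, ∑ p ∈ MP_48b1c3_nt.H54.PI 0 y, (1 : ℝ) / p = ∑ l ∈ PR 0 y, 1 / (l : ℝ) :=
    fun y => by simp [MP_48b1c3_nt.H54.PI, PR]
  have h : a ≤ a ^ B := Nat.le_self_pow (by omega) a
  have ha' : (2 : ℝ) ≤ a := by exact_mod_cast ha
  have h1 := (abs_le.1 (hC a ha')).2
  have h2 := (abs_le.1 (hC (a ^ B : ℕ) (by exact_mod_cast ha.trans h))).1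
  rw [e] at h1 h2
  have h3 : ∑ l ∈ PR 0 a, 1 / (l : ℝ) + ∑ l ∈ PR a (a ^ B), 1 / (l : ℝ) =
      ∑ l ∈ PR 0 (a ^ B), 1 / (l : ℝ) := by
    simp only [PR, sum_filter]
    exact sum_Ioc_consecutive _ (Nat.zero_le a) h
  rw [Nat.cast_pow, Real.log_pow, Real.log_mul (by positivity)
    (Real.log_pos (by linarith)).ne'] at h2
  linarith

theorem struct (p : ℕ) {Y K : ℕ} {δ : ℝ} (hY : 0 < Y) (δ0 : 0 < δ) (δ1 : δ ≤ 1)
    (hK : (98304 / δ ^ 6) ^ 5 * (6 / δ) ≤ K)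
    (h : δ * (Y : ℝ) ^ 2 ≤ ∑ a ∈ Ioc 0 Y, (#{b ∈ Ioc 0 Y | g p (a + b) = g p a + g p b} : ℝ))
    (inj : Set.InjOn (g p) (Ioc 0 Y)) :
    ∃ S ⊆ Ioc 0 Y, δ * Y / 6 ≤ #S ∧ ∀ m : ℕ, #((m + 1) • (S.image (g p) - S.image (g p))) ≤
      (m + 1) ^ K * (K * #(S.image (g p))) := by
  obtain ⟨S, hS, S', hS', h1, h2, h3⟩ := bsg (g p) hY δ0 h
  have Y0 : (0 : ℝ) < Y := by exact_mod_cast hY
  have c := card_image_of_injOn (inj.mono (coe_subset.2 hS))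
  have c' := card_image_of_injOn (inj.mono (coe_subset.2 hS'))
  have n : (S.image (g p)).Nonempty := card_pos.1 (by
    rw [c]; exact_mod_cast (show (0 : ℝ) < #S from lt_of_lt_of_le (by positivity) h1))
  have n' : (S'.image (g p)).Nonempty := card_pos.1 (by
    rw [c']; exact_mod_cast (show (0 : ℝ) < #S' from lt_of_lt_of_le (by positivity) h2))
  have a1 : (#(S'.image (g p) + S.image (g p)) : ℝ) ≤ 98304 / δ ^ 6 * #(S'.image (g p)) := by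
    rw [c', div_mul_eq_mul_div, le_div_iff₀ (by positivity)]
    nlinarith [mul_le_mul_of_nonneg_left h3 δ0.le]
  have a2 : (#(S'.image (g p)) : ℝ) ≤ 6 / δ * #(S.image (g p)) := by
    rw [c, c', div_mul_eq_mul_div, le_div_iff₀ δ0]
    have : (#S' : ℝ) ≤ Y := by simpa using (Nat.cast_le (α := ℝ)).2 (card_le_card hS')
    nlinarith
  have a3 : 1 ≤ 98304 / δ ^ 6 := (one_le_div (by positivity)).2
    ((pow_le_one₀ δ0.le δ1).trans (by norm_num))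
  have a4 : ∀ m n : ℕ, m + n ≤ 5 → (#(m • S.image (g p) - n • S.image (g p)) : ℝ) ≤
      K * #(S.image (g p)) := fun m n hm => (plu n' a1 m n).trans <|
    calc _ ≤ (98304 / δ ^ 6) ^ 5 * (6 / δ * #(S.image (g p))) :=
        mul_le_mul (pow_le_pow_right₀ a3 hm) a2 (by positivity) (by positivity)
      _ ≤ _ := by rw [← mul_assoc]; gcongr
  refine ⟨S, hS, h1, grow n (by rw [five]; exact a4 3 2 le_rfl) ?_⟩
  have := a4 1 1 (by norm_num)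
  rw [one_nsmul] at this
  exact_mod_cast this

theorem core {δ : ℝ} (δ0 : 0 < δ) (δ1 : δ ≤ 1) : ∃ A L₀ : ℕ, ∀ p L Y : ℕ, p.Prime → L₀ ≤ L →
    p < 2 ^ L → L ^ A ≤ Y → Y < p →
    ∑ a ∈ Ioc 0 Y, (#{b ∈ Ioc 0 Y | g p (a + b) = g p a + g p b} : ℝ) < δ * (Y : ℝ) ^ 2 := by
  obtain ⟨C, hC⟩ := mert
  obtain ⟨K, hK⟩ := exists_nat_ge ((98304 / δ ^ 6) ^ 5 * (6 / δ))
  obtain ⟨B, hB⟩ := exists_nat_ge (Real.exp (36 / δ + C))
  have B0 : (0 : ℝ) < B := (Real.exp_pos _).trans_le hB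
  have B1 : 1 ≤ B := by exact_mod_cast B0
  have B2 : 36 / δ + C ≤ Real.log B := (Real.le_log_iff_exp_le B0).2 hB
  obtain ⟨γ, hγ⟩ : ∃ γ : ℝ, γ = δ / (336 * B) := ⟨_, rfl⟩
  have γ0 : 0 < γ := by rw [hγ]; positivity
  have γ1 : γ ≤ 1 := by
    have : (1 : ℝ) ≤ B := by exact_mod_cast B1
    rw [hγ, div_le_one (by positivity)]
    linarith
  obtain ⟨L₀, hL₀⟩ := exists_nat_ge (32768 / γ ^ 8)
  refine ⟨14 * B + (14 * B + 1) * K + 4, L₀ + K + 3, fun p L Y hp hL hpL hY hYp => ?_⟩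
  by_contra hc
  have L1 : 32768 ≤ γ ^ 8 * L := by
    rw [div_le_iff₀ (by positivity)] at hL₀
    have : (L₀ : ℝ) ≤ L := by exact_mod_cast (by omega : L₀ ≤ L)
    nlinarith [pow_pos γ0 8]
  have L0 : 0 < L := by omega
  have L0' : (0 : ℝ) < L := by exact_mod_cast L0
  have Y0 : 0 < Y := (Nat.pow_pos L0).trans_le hY
  have Y0' : (0 : ℝ) < Y := by exact_mod_cast Y0
  obtain ⟨S, hS, s1, s2⟩ := struct p Y0 δ0 δ1 hK (not_lt.1 hc) fun x hx y hy e =>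
    eq_of hp ((mem_Ioc.1 hx).2.trans_lt hYp) ((mem_Ioc.1 hy).2.trans_lt hYp)
      ((dvd_pow_self _ two_ne_zero).trans ((zero_iff p _).1 (by push_cast; exact sub_eq_zero.2 e)))
  have s0 : S.Nonempty := card_pos.1 (by
    exact_mod_cast (show (0 : ℝ) < #S from lt_of_lt_of_le (by positivity) s1))
  obtain ⟨i, hi⟩ : ∃ i, i = Nat.log 2 (L ^ 13) + 1 := ⟨_, rfl⟩
  have i1 : L ^ 13 < 2 ^ i := hi ▸ Nat.lt_pow_succ_log_self one_lt_two _
  have i2 : 2 ^ i ≤ L ^ 14 := by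
    have := Nat.pow_log_le_self 2 (Nat.pow_pos (n := 13) L0).ne'
    rw [hi, pow_succ, pow_succ L 13]
    exact Nat.mul_le_mul this (by omega)
  have i3 : i ≤ 14 * L := by
    refine (Nat.pow_le_pow_iff_right one_lt_two).1 (i2.trans ?_)
    rw [mul_comm, pow_mul]
    exact Nat.pow_le_pow_left L.lt_two_pow_self.le 14
  have i4 : (2 ^ i) ^ B ≤ L ^ (14 * B) := by
    rw [pow_mul]
    exact Nat.pow_le_pow_left i2 B
  have i5 : L ^ (14 * B) ≤ Y := (Nat.pow_le_pow_right L0 (by omega)).trans hY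
  have a1 : ∀ j ∈ Ico i (i * B),
      (#(U S (PR (2 ^ j) (2 * 2 ^ j))) : ℝ) ≤ γ / L * Y := fun j hj => by
    obtain ⟨j1, j2⟩ := mem_Ico.1 hj
    obtain ⟨W, hW⟩ : ∃ W, W = 2 ^ j := ⟨_, rfl⟩
    have W1 : L ^ 13 ≤ W := hW ▸ i1.le.trans (Nat.pow_le_pow_right two_pos j1)
    have W2 : 2 * W ≤ L ^ (14 * B) := by
      refine le_trans ?_ i4
      rw [hW, ← pow_succ', ← pow_mul]
      exact Nat.pow_le_pow_right two_pos j2
    have W0 : 0 < W := (Nat.pow_pos L0).trans_le W1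
    have W0' : (0 : ℝ) < W := by exact_mod_cast W0
    rw [← hW]
    have b1 := scale (PR W (2 * W)) S (fun l q => (l : ZMod (p ^ 2)) * g p q = q * g p l)
      (τ := (4 * W + 1) ^ K * K) (t := (γ / L) ^ 2 * W / 2) W0 (filter_subset _ _) hS (by positivity)
      (fun l hl l' hl' h => (fib hp hYp hS s0 s2 h).trans (Nat.mul_le_mul_right _
        (Nat.pow_le_pow_left (by
          have := (mem_Ioc.1 (mem_filter.1 hl).1).2
          have := (mem_Ioc.1 (mem_filter.1 hl').1).2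
          omega) K)))
      fun l hl => cls hp hpL (by omega) γ0 γ1 L1 W1 hl
    have b2 : 2 * W * ((4 * W + 1) ^ K * K) * L ^ 3 ≤ Y := by
      refine le_trans ?_ hY
      have : 4 * W + 1 ≤ L ^ (14 * B + 1) := by
        have := Nat.mul_le_mul_left (L ^ (14 * B)) (show 3 ≤ L by omega)
        rw [pow_succ]
        omega
      calc _ ≤ L ^ (14 * B) * ((L ^ (14 * B + 1)) ^ K * L) * L ^ 3 := by gcongr; omega
        _ = _ := by ring
    obtain ⟨τ, hτ⟩ : ∃ τ, τ = (4 * W + 1) ^ K * K := ⟨_, rfl⟩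
    rw [← hτ] at b1 b2
    have b3 : 2 * (W : ℝ) * τ * L ^ 3 ≤ Y := by exact_mod_cast b2
    have b4 : 2 * (W : ℝ) * τ ≤ (γ / L) ^ 2 * Y := by
      have c1 : 1 ≤ γ ^ 2 * L := by
        have := mul_le_mul_of_nonneg_right
          (pow_le_pow_of_le_one γ0.le γ1 (show 2 ≤ 8 by norm_num)) L0'.le
        linarith
      rw [div_pow, div_mul_eq_mul_div, le_div_iff₀ (by positivity)]
      calc 2 * (W : ℝ) * τ * L ^ 2 ≤ 2 * W * τ * L ^ 2 * (γ ^ 2 * L) :=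
          le_mul_of_one_le_right (by positivity) c1
        _ = γ ^ 2 * (2 * W * τ * L ^ 3) := by ring
        _ ≤ _ := by gcongr
    refine le_of_pow_le_pow_left₀ two_ne_zero (by positivity) (le_of_mul_le_mul_left (b1.trans ?_) W0')
    nlinarith [mul_le_mul_of_nonneg_left b4 (mul_pos Y0' W0').le]
  have a2 : S ⊆ Z Y (PR (2 ^ i) ((2 ^ i) ^ B)) ∪
      (Ico i (i * B)).biUnion fun j => U S (PR (2 ^ j) (2 * 2 ^ j)) := fun n hn => by
    by_cases h : ∃ l ∈ PR (2 ^ i) ((2 ^ i) ^ B), l ∣ n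
    · obtain ⟨l, hl, hd⟩ := h
      obtain ⟨⟨l1, l2⟩, l3⟩ := (mem_filter.1 hl).imp_left mem_Ioc.1
      have l4 := l3.two_le
      have c1 := Nat.pow_log_le_self 2 (show l - 1 ≠ 0 by omega)
      have c2 := Nat.lt_pow_succ_log_self one_lt_two (l - 1)
      rw [← pow_mul] at l2
      refine mem_union_right _ (mem_biUnion.2 ⟨Nat.log 2 (l - 1), mem_Ico.2
        ⟨Nat.le_log_of_pow_le one_lt_two (by omega),
          (Nat.pow_lt_pow_iff_right one_lt_two).1 (by omega)⟩,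
        mem_filter.2 ⟨hn, l, mem_filter.2 ⟨mem_Ioc.2 ⟨by omega, by omega⟩, l3⟩, hd⟩⟩)
    · exact mem_union_left _ (mem_filter.2 ⟨hS hn, h⟩)
  have a3 := (Nat.cast_le (α := ℝ)).2 ((card_le_card a2).trans ((card_union_le _ _).trans
    (Nat.add_le_add_left card_biUnion_le _)))
  push_cast at a3
  have a4 := MP_71ac24_nt.H14.bsg_sum_le _ _ _ a1
  have a5 : (#(Ico i (i * B)) : ℝ) ≤ 14 * L * B := by
    rw [Nat.card_Ico]
    exact_mod_cast (Nat.sub_le _ _).trans (Nat.mul_le_mul_right B i3)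
  have a6 : (#(Ico i (i * B)) : ℝ) * (γ / L * Y) ≤ δ * Y / 24 :=
    (mul_le_mul_of_nonneg_right a5 (by positivity)).trans (le_of_eq (by rw [hγ]; field_simp; ring))
  have a7 := hC (2 ^ i) B (by rw [hi, pow_succ]; have := Nat.pow_pos (n := Nat.log 2 (L ^ 13)) two_pos; omega) B1
  have a8 : 36 / δ ≤ ∑ l ∈ PR (2 ^ i) ((2 ^ i) ^ B), 1 / (l : ℝ) := by linarith
  have a9 : (#(Z Y (PR (2 ^ i) ((2 ^ i) ^ B))) : ℝ) * _ ≤ _ := tk (PR (2 ^ i) ((2 ^ i) ^ B)) (fun l hl => (mem_filter.1 hl).2) (Y := Y)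
    ((card_filter_le _ _).trans (by rw [Nat.card_Ioc]; omega)) rfl (lt_of_lt_of_le (by positivity) a8)
  have a10 := (mul_le_mul_of_nonneg_left a8 (Nat.cast_nonneg _)).trans a9
  rw [← mul_div_assoc, div_le_iff₀ δ0] at a10
  nlinarith [mul_pos δ0 Y0']

theorem main (η : ℝ) (hη : 0 < η) : ∃ A p₀ : ℕ, ∀ p Y : ℕ, p.Prime → p₀ ≤ p →
    Real.log p ^ A ≤ Y → Y < p →
    ({v : ℕ × ℕ | 1 ≤ v.1 ∧ v.1 ≤ Y ∧ 1 ≤ v.2 ∧ v.2 ≤ Y ∧ ∃ a : ℤ, a * v.2 ≡ v.1 [ZMOD p] ∧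
      (1 + a) ^ p ≡ 1 + a ^ p [ZMOD (p : ℤ) ^ 2]}.ncard : ℝ) ≤ η * (Y : ℝ) ^ 2 := by
  obtain ⟨A, L₀, h⟩ := core (lt_min hη one_pos) (min_le_right η 1)
  refine ⟨2 * A, 2 ^ (L₀ + 5), fun p Y hp h0 h1 h2 => ?_⟩
  have p0 : (0 : ℝ) < p := by exact_mod_cast hp.pos
  have a1 : L₀ + 5 ≤ Nat.log 2 p := Nat.le_log_of_pow_le one_lt_two h0
  have a2 : (Nat.log 2 p : ℝ) * Real.log 2 ≤ Real.log p := by
    rw [← Real.log_pow]
    exact Real.log_le_log (by positivity) (by exact_mod_cast Nat.pow_log_le_self 2 hp.ne_zero)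
  have a3 : (5 : ℝ) ≤ Nat.log 2 p := by exact_mod_cast (by omega : 5 ≤ Nat.log 2 p)
  have a4 : ((Nat.log 2 p + 1 : ℕ) : ℝ) ≤ Real.log p ^ 2 := by
    have := Real.log_two_gt_d9
    have b : 0.69 * (Nat.log 2 p : ℝ) ≤ Real.log p := by nlinarith
    push_cast
    nlinarith
  have a5 : (Nat.log 2 p + 1) ^ A ≤ Y := by
    rw [pow_mul] at h1
    exact_mod_cast (pow_le_pow_left₀ (by positivity) a4 A).trans h1
  have a6 := h p _ Y hp (by omega) (Nat.lt_pow_succ_log_self one_lt_two p) a5 h2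
  rw [← MP_71ac24_nt.H14.bsg_card_prod, ← Set.ncard_coe_finset] at a6
  refine (Nat.cast_le.2 (Set.ncard_le_ncard (fun v hv => ?_) (finite_toSet _))).trans
    (a6.le.trans (mul_le_mul_of_nonneg_right (min_le_left _ _) (sq_nonneg _)))
  obtain ⟨b1, b2, b3, b4, a, c1, c2⟩ := hv
  refine mem_coe.2 (mem_filter.2 ⟨mem_product.2 ⟨mem_Ioc.2 ⟨b1, b2⟩, mem_Ioc.2 ⟨b3, b4⟩⟩, ?_⟩)
  have d1 := lift c1.dvd
  have d2 := lift (c1.add_right v.2).dvd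
  have d3 := (zero_iff p _).2 c2.dvd
  push_cast at d1 d2 d3
  simp only [g, Nat.cast_add]
  rw [d1, d2, show (a * v.2 + v.2 : ZMod (p ^ 2)) = (1 + a) * v.2 by ring, mul_pow, mul_pow,
    ← sub_eq_zero.1 d3]
  ring

end Pool.Agent.MP_75c3b6_nt.SH
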