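import Pool.Agent.MP_75c3b6_nt.SH.B
import Pool.Agent.MP_fc7299_nt.AP.C

/-! Solutions of small height of the binomial congruence: a quantitative bound. -/

namespace Pool.Agent.MP_75c3b6_nt.SH

open Finset Filter Pointwise

section group

variable {G : Type*} [AddCommGroup G] [DecidableEq G]

theorem bsg2 (g g' : ℕ → G) (σ : ℕ → ℕ → ℕ) (r : ℕ → ℕ → Prop) [∀ a b, Decidable (r a b)]
    {A B : Finset ℕ} {Y : ℕ} {δ : ℝ} (hY : 0 < Y) (hδ : 0 < δ) (hA : A ⊆ Ioc 0 Y) (hB : B ⊆ Ioc 0 Y)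
    (h1 : ∀ a ∈ A, ∀ b ∈ B, r a b → σ a b ∈ Ioc 0 Y ∧ g (σ a b) = g a + g' b)
    (h2 : ∀ a b b', r a b → r a b' → σ a b = σ a b' → b = b')
    (h3 : ∀ a a' b, r a b → r a' b → σ a b = σ a' b → a = a')
    (h : δ * (Y : ℝ) ^ 2 ≤ ∑ a ∈ A, (#{b ∈ B | r a b} : ℝ)) :
    ∃ S ⊆ A, ∃ S' ⊆ B, δ * Y / 6 ≤ #S ∧ δ * Y / 4 ≤ #S' ∧
      δ ^ 5 * #(S'.image g' + S.image g) ≤ 24576 * Y := by
  have Y0 : (0 : ℝ) < Y := by exact_mod_cast hY
  have c : ∀ A ⊆ Ioc 0 Y, (#A : ℝ) ≤ Y := fun A hA => by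
    simpa using (Nat.cast_le (α := ℝ)).2 (card_le_card hA)
  obtain ⟨S, hS, S', hS', k1, k2, k3⟩ := MP_71ac24_nt.H14.bsg_paths A B r Y0 hδ (c A hA) (c B hB) h
  refine ⟨S, hS, S', hS', k1, k2, ?_⟩
  obtain ⟨Q, hQ⟩ : ∃ Q, Q = Ioc 0 Y ×ˢ Ioc 0 Y ×ˢ Ioc 0 Y := ⟨_, rfl⟩
  have k4 : ∀ v ∈ S'.image g' + S.image g, δ ^ 5 * (Y : ℝ) ^ 2 / 3072 ≤
      (#{t ∈ Q | g t.1 - g t.2.1 + g t.2.2 = v} : ℝ) := fun v hv => by
    obtain ⟨u, hu, u', hu', rfl⟩ := mem_add.1 hv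
    obtain ⟨b, hb, rfl⟩ := mem_image.1 hu
    obtain ⟨a, ha, rfl⟩ := mem_image.1 hu'
    refine (k3 a ha b hb).trans (Nat.cast_le.2 (card_le_card_of_injOn
      (fun p => (σ a p.2, σ p.1 p.2, σ p.1 b)) (fun p hp => ?_) fun p hp p' hp' e => ?_))
    · obtain ⟨c1, e1, e2, e3⟩ := mem_filter.1 hp
      obtain ⟨c1, c2⟩ := mem_product.1 c1
      have f1 := h1 a (hS ha) _ c2 e1
      have f2 := h1 _ c1 _ c2 e2
      have f3 := h1 _ c1 b (hS' hb) e3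
      refine mem_coe.2 (mem_filter.2 ⟨hQ ▸ mem_product.2 ⟨f1.1, mem_product.2 ⟨f2.1, f3.1⟩⟩, ?_⟩)
      simp only [f1.2, f2.2, f3.2]
      abel
    · simp only [Prod.mk.injEq] at e
      exact Prod.ext (h3 _ _ _ (mem_filter.1 hp).2.2.2 (mem_filter.1 hp').2.2.2 e.2.2)
        (h2 _ _ _ (mem_filter.1 hp).2.1 (mem_filter.1 hp').2.1 e.1)
  have k5 := MP_71ac24_nt.H14.bsg_le_sum _ _ _ k4
  rw [← Nat.cast_sum, sum_card_fiberwise_eq_card_filter] at k5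
  have k6 := k5.trans (MP_71ac24_nt.H14.bsg_card_filter_le _ _)
  simp only [hQ, card_product, Nat.card_Ioc, tsub_zero, Nat.cast_mul] at k6
  refine le_of_mul_le_mul_right ?_ (pow_pos Y0 2)
  nlinarith [pow_pos Y0 3]

theorem horner {H F : Finset G} (h : H + H ⊆ F + H) (h0 : (0 : G) ∈ H) (j : ℕ) :
    ∀ l < 2 ^ j, ∃ T : Finset G, #T ≤ #F ^ (2 * j) ∧ ∀ x ∈ H, l • x ∈ T + H := by
  have h3 : H + H + H ⊆ F + F + H := by
    refine (add_subset_add_right h).trans ?_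
    rw [add_assoc, add_assoc]
    exact add_subset_add_left h
  induction j with
  | zero =>
    intro l hl
    obtain rfl : l = 0 := by omega
    exact ⟨{0}, by simp, fun x _ => by simpa using add_mem_add (mem_singleton_self 0) h0⟩
  | succ j ih =>
    intro l hl
    obtain ⟨T, hT, k⟩ := ih (l / 2) (by omega)
    refine ⟨T.image (2 • ·) + (F + F), card_add_le.trans ?_, fun x hx => ?_⟩
    · rw [mul_add, pow_add, mul_one, sq]
      exact Nat.mul_le_mul (card_image_le.trans hT) card_add_le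
    · obtain ⟨t, ht, y, hy, e⟩ := mem_add.1 (k x hx)
      have : (l % 2) • x ∈ H := by
        rcases Nat.mod_two_eq_zero_or_one l with e | e <;> simp [e, h0, hx]
      have e' : l • x = 2 • t + (y + y + (l % 2) • x) :=
        calc l • x = (2 * (l / 2) + l % 2) • x := by rw [Nat.div_add_mod]
          _ = _ := by rw [add_nsmul, mul_nsmul', ← e]; abel
      rw [e', add_assoc (T.image _)]
      exact add_mem_add (mem_image_of_mem (2 • ·) ht) (h3 (add_mem_add (add_mem_add hy hy) this))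

theorem grow2 {Γ : Finset G} (h0 : Γ.Nonempty) {K : ℕ}
    (h1 : (#(Γ - Γ + (Γ - Γ) + Γ) : ℝ) ≤ K * #Γ) (h2 : #(Γ - Γ) ≤ K * #Γ) {j l l' : ℕ}
    (hl : l < 2 ^ j) (hl' : l' < 2 ^ j) : ∃ T : Finset G, #T ≤ K ^ (4 * j + 3) * #Γ ∧
      ∀ x ∈ Γ - Γ, ∀ y ∈ Γ - Γ, ∀ z ∈ Γ - Γ, l' • x + l • y + z ∈ T := by
  obtain ⟨F, -, hF, h⟩ := ruzsa_covering_add h0 h1
  have hF' : #F ≤ K := by exact_mod_cast hF
  obtain ⟨a, ha⟩ := h0
  have z0 : (0 : G) ∈ Γ - Γ := sub_self a ▸ sub_mem_sub ha ha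
  obtain ⟨T, hT, k⟩ := horner h z0 j l hl
  obtain ⟨T', hT', k'⟩ := horner h z0 j l' hl'
  have h3 : Γ - Γ + (Γ - Γ) + (Γ - Γ) ⊆ F + F + (Γ - Γ) := by
    refine (add_subset_add_right h).trans ?_
    rw [add_assoc, add_assoc]
    exact add_subset_add_left h
  refine ⟨T' + T + (F + F + (Γ - Γ)), ?_, fun x hx y hy z hz => ?_⟩
  · have p := Nat.pow_le_pow_left hF' (2 * j)
    refine (card_add_le.trans (Nat.mul_le_mul
      (card_add_le.trans (Nat.mul_le_mul (hT'.trans p) (hT.trans p)))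
      (card_add_le.trans (Nat.mul_le_mul (card_add_le.trans (Nat.mul_le_mul hF' hF')) h2)))).trans
      (le_of_eq ?_)
    ring
  · obtain ⟨t, ht, u, hu, e⟩ := mem_add.1 (k y hy)
    obtain ⟨t', ht', u', hu', e'⟩ := mem_add.1 (k' x hx)
    rw [← e, ← e', show t' + u' + (t + u) + z = t' + t + (u' + u + z) by abel]
    exact add_mem_add (add_mem_add ht' ht) (h3 (add_mem_add (add_mem_add hu' hu) hz))

end group

theorem fib2 {p Y τ l l' : ℕ} (hp : p.Prime) (hY : Y < p) {S : Finset ℕ} (hS : S ⊆ Ioc 0 Y)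
    (h0 : S.Nonempty) (hK : ∃ T : Finset (ZMod (p ^ 2)), #T ≤ τ * #(S.image (g p)) ∧
      ∀ x ∈ S.image (g p) - S.image (g p), ∀ y ∈ S.image (g p) - S.image (g p),
      ∀ z ∈ S.image (g p) - S.image (g p), l' • x + l • y + z ∈ T)
    (hD : ¬ (l : ZMod (p ^ 2)) * g p l' = l' * g p l) :
    #{x ∈ Ioc 0 Y | l * x ∈ S ∧ l' * x ∈ S} ≤ τ := by
  obtain ⟨T, hT, hK⟩ := hK
  obtain ⟨s₀, hs₀⟩ := id h0
  obtain ⟨D, hD'⟩ : ∃ D : ℤ, D = l' * (l : ℤ) ^ p - l * (l' : ℤ) ^ p := ⟨_, rfl⟩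
  have D1 : (p : ℤ) ∣ D := by
    refine (dvd_sub ((fer hp l).mul_left l') ((fer hp l').mul_left l)).trans (dvd_of_eq ?_)
    rw [hD']
    ring
  have D2 : ¬ (p : ℤ) ^ 2 ∣ D := fun h => hD (by
    have := (zero_iff p _).2 h
    rw [hD'] at this
    push_cast at this
    exact (sub_eq_zero.1 this).symm)
  have mem : ∀ a ∈ S, ∀ b ∈ S, g p a - g p b ∈ S.image (g p) - S.image (g p) :=
    fun a ha b hb => sub_mem_sub (mem_image_of_mem _ ha) (mem_image_of_mem _ hb)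
  have k := card_le_card_of_injOn (s := S ×ˢ {x ∈ Ioc 0 Y | l * x ∈ S ∧ l' * x ∈ S})
    (t := T)
    (fun v => g p v.1 + g p v.2 * D - (l' - l + 1) * g p s₀) (fun v hv => ?_) fun v hv v' hv' e => ?_
  · rw [card_product] at k
    have := (k.trans hT).trans (Nat.mul_le_mul_left _ card_image_le)
    refine Nat.le_of_mul_le_mul_left (this.trans (le_of_eq ?_)) h0.card_pos
    ring
  · obtain ⟨a, b⟩ := mem_product.1 hv
    obtain ⟨-, b1, b2⟩ := mem_filter.1 b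
    have := hK _ (mem _ b1 _ hs₀) _ (mem _ hs₀ _ b2) _ (mem _ a _ hs₀)
    refine Set.mem_of_eq_of_mem ?_ (mem_coe.2 this)
    simp only [g, hD', nsmul_eq_mul]
    push_cast
    ring
  · obtain ⟨a, b⟩ := mem_product.1 hv
    obtain ⟨a', b'⟩ := mem_product.1 hv'
    have c := (mem_Ioc.1 (hS a)).2
    have c' := (mem_Ioc.1 (hS a')).2
    have d := (mem_Ioc.1 (mem_filter.1 b).1).2
    have d' := (mem_Ioc.1 (mem_filter.1 b').1).2
    have e1 : (p : ℤ) ^ 2 ∣ ((v.1 : ℤ) ^ p - (v'.1 : ℤ) ^ p) + ((v.2 : ℤ) ^ p - (v'.2 : ℤ) ^ p) * D := by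
      refine (zero_iff p _).1 ?_
      simp only [g] at e
      push_cast
      linear_combination e
    have e2 : v.1 = v'.1 := eq_of hp (by omega) (by omega)
      ((dvd_add_left (D1.mul_left _)).1 ((dvd_pow_self _ two_ne_zero).trans e1))
    rw [e2, sub_self, zero_add] at e1
    obtain ⟨d0, rfl⟩ := D1
    have p0 : (p : ℤ) ≠ 0 := by exact_mod_cast hp.ne_zero
    rw [sq, mul_left_comm, mul_dvd_mul_iff_left p0] at e1
    rw [sq, mul_dvd_mul_iff_left p0] at D2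
    exact Prod.ext e2 (eq_of hp (by omega) (by omega)
      (((Nat.prime_iff_prime_int.1 hp).dvd_or_dvd e1).resolve_right D2))

theorem cls2 {p L W l : ℕ} {γ : ℝ} (hp : p.Prime) (hL : p < 2 ^ L) (hW : 2 * W < p) (γ0 : 0 < γ)
    (γ1 : γ ≤ 1) (L1 : (1 : ℝ) ≤ L) (a3 : 32768 * (L : ℝ) ^ 12 ≤ γ ^ 8 * W) (hl : l ∈ PR W (2 * W)) :
    (#{q ∈ PR W (2 * W) | (l : ZMod (p ^ 2)) * g p q = q * g p l} : ℝ) ≤ (γ / L) ^ 2 * W / 2 := by
  obtain ⟨t, ht⟩ : ∃ t, t = #{q ∈ PR W (2 * W) | (l : ZMod (p ^ 2)) * g p q = q * g p l} := ⟨_, rfl⟩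
  have l1 := mem_Ioc.1 (mem_filter.1 hl).1
  have p2 : 0 < p ^ 2 := pow_pos hp.pos 2
  obtain ⟨k, hk⟩ : ∃ k, k = Nat.log (2 * W) (p ^ 2 - 1) := ⟨_, rfl⟩
  have W2 : (2 * W) ^ 2 < p ^ 2 := Nat.pow_lt_pow_left hW two_ne_zero
  have W0 : 0 < W := by omega
  have k1 : (2 * W) ^ k ≤ p ^ 2 - 1 := hk ▸ Nat.pow_log_le_self _ (by
    have : 0 < (2 * W) ^ 2 := by positivity
    omega)
  have k2 : p ^ 2 - 1 < (2 * W) ^ (k + 1) := hk ▸ Nat.lt_pow_succ_log_self (by omega) _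
  have k3 : 2 ≤ k := hk ▸ Nat.le_log_of_pow_le (by omega) (by omega)
  have k4 : k ≤ 2 * L := by
    refine (Nat.pow_le_pow_iff_right one_lt_two).1 ?_
    have := Nat.pow_le_pow_left (show 2 ≤ 2 * W by omega) k
    have := Nat.pow_lt_pow_left hL two_ne_zero
    rw [mul_comm 2 L, pow_mul]
    omega
  have a := lev (W := 2 * W) k3 (by omega) (level (k := k) (W := 2 * W) hp
    ((Nat.coprime_primes (mem_filter.1 hl).2 hp).2 (by omega))
    (T := {q ∈ PR W (2 * W) | (l : ZMod (p ^ 2)) * g p q = q * g p l})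
    (fun q hq => ⟨(mem_filter.1 (mem_filter.1 hq).1).2,
      (mem_Ioc.1 (mem_filter.1 (mem_filter.1 hq).1).1).2, (mem_filter.1 hq).2⟩) (by omega)) (by omega)
  rw [← ht] at a ⊢
  have a1 : ((t + 1 - k : ℕ) : ℝ) ^ 4 ≤ (2 * W) ^ 3 * (2 * L) ^ 4 := by
    exact_mod_cast a.trans (Nat.mul_le_mul_left _ (Nat.pow_le_pow_left k4 4))
  have a2 : (t : ℝ) ≤ (t + 1 - k : ℕ) + 2 * L := by exact_mod_cast (by omega : t ≤ t + 1 - k + 2 * L)
  have L0 : (0 : ℝ) < L := by linarith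
  have a4 : ((t + 1 - k : ℕ) : ℝ) ≤ (γ / L) ^ 2 * W / 4 := by
    refine le_of_pow_le_pow_left₀ four_ne_zero (by positivity) (a1.trans ?_)
    have : ((γ / L) ^ 2 * W / 4) ^ 4 = γ ^ 8 * W * W ^ 3 / (256 * L ^ 8) := by field_simp; ring
    rw [this, le_div_iff₀ (by positivity)]
    calc _ = 32768 * (L : ℝ) ^ 12 * W ^ 3 := by ring
      _ ≤ _ := by gcongr
  have a5 : 2 * (L : ℝ) ≤ (γ / L) ^ 2 * W / 4 := by
    have : (γ / L) ^ 2 * W / 4 = γ ^ 2 * W / (4 * L ^ 2) := by field_simp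
    rw [this, le_div_iff₀ (by positivity)]
    have b1 : γ ^ 8 * W ≤ γ ^ 2 * W :=
      mul_le_mul_of_nonneg_right (pow_le_pow_of_le_one γ0.le γ1 (by norm_num)) W.cast_nonneg
    have b2 : (L : ℝ) ^ 3 ≤ L ^ 12 := pow_le_pow_right₀ (by linarith) (by norm_num)
    have b3 : (0 : ℝ) ≤ L ^ 12 := by positivity
    nlinarith
  linarith

theorem nofac {δ γ : ℝ} {κ B i p L Y : ℕ} (δ0 : 0 < δ) (δ1 : δ ≤ 1)
    (hK : (98304 / δ ^ 6) ^ 5 * (6 / δ) ≤ (2 ^ κ : ℕ)) (B1 : 1 ≤ B) (hγ : γ = δ / (648 * B))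
    (hp : p.Prime) (hL : 32768 ≤ L) (L1 : 1 ≤ γ * L ^ 5) (hpL : p < 2 ^ L) (i1 : L ^ 53 ≤ 2 ^ i)
    (i2 : 2 ^ i ≤ L ^ 54) (hY : L ^ (54 * B + 54 * B * (11 * κ) + 12) ≤ Y) (hYp : Y < p)
    (g' : ℕ → ZMod (p ^ 2)) (σ : ℕ → ℕ → ℕ) (r : ℕ → ℕ → Prop) [∀ a b, Decidable (r a b)]
    {A A' : Finset ℕ} (hA : A ⊆ U (Ioc 0 Y) (PR (2 ^ i) ((2 ^ i) ^ B))) (hB : A' ⊆ Ioc 0 Y)
    (r1 : ∀ a ∈ A, ∀ b ∈ A', r a b → σ a b ∈ Ioc 0 Y ∧ g p (σ a b) = g p a + g' b)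
    (r2 : ∀ a b b', r a b → r a b' → σ a b = σ a b' → b = b')
    (r3 : ∀ a a' b, r a b → r a' b → σ a b = σ a' b → a = a') (inj' : Set.InjOn g' A') :
    ∑ a ∈ A, (#{b ∈ A' | r a b} : ℝ) ≤ δ * (Y : ℝ) ^ 2 := by
  obtain ⟨K, hK'⟩ : ∃ K, K = 2 ^ κ := ⟨_, rfl⟩
  rw [← hK'] at hK
  have B0 : (0 : ℝ) < B := by exact_mod_cast B1
  have γ0 : 0 < γ := by rw [hγ]; positivity
  have γ1 : γ ≤ 1 := by
    have : (1 : ℝ) ≤ B := by exact_mod_cast B1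
    rw [hγ, div_le_one (by positivity)]
    linarith
  by_contra hc
  have L0 : 0 < L := by omega
  have L2 : (32768 : ℝ) ≤ L := by exact_mod_cast hL
  have L0' : (0 : ℝ) < L := by linarith
  have hY0 : 0 < Y := (Nat.pow_pos L0).trans_le hY
  have Y0 : (0 : ℝ) < Y := by exact_mod_cast hY0
  have hA' : A ⊆ Ioc 0 Y := hA.trans (filter_subset _ _)
  obtain ⟨S, hS0, S', hS', h1, h2, h3⟩ := bsg2 (g p) g' σ r hY0 δ0 hA' hB r1 r2 r3 (not_le.1 hc).le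
  have hS := hS0.trans hA'
  have inj : Set.InjOn (g p) (Ioc 0 Y : Finset ℕ) := fun x hx y hy e =>
    eq_of hp ((mem_Ioc.1 hx).2.trans_lt hYp) ((mem_Ioc.1 hy).2.trans_lt hYp)
      ((dvd_pow_self _ two_ne_zero).trans ((zero_iff p _).1 (by push_cast; exact sub_eq_zero.2 e)))
  have c := card_image_of_injOn (inj.mono (coe_subset.2 hS))
  have c' := card_image_of_injOn (inj'.mono (coe_subset.2 hS'))
  have n : (S.image (g p)).Nonempty := card_pos.1 (by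
    rw [c]; exact_mod_cast (show (0 : ℝ) < #S from lt_of_lt_of_le (by positivity) h1))
  have n' : (S'.image g').Nonempty := card_pos.1 (by
    rw [c']; exact_mod_cast (show (0 : ℝ) < #S' from lt_of_lt_of_le (by positivity) h2))
  have a1 : (#(S'.image g' + S.image (g p)) : ℝ) ≤ 98304 / δ ^ 6 * #(S'.image g') := by
    rw [c', div_mul_eq_mul_div, le_div_iff₀ (by positivity)]
    nlinarith [mul_le_mul_of_nonneg_left h3 δ0.le]
  have a2 : (#(S'.image g') : ℝ) ≤ 6 / δ * #(S.image (g p)) := by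
    rw [c, c', div_mul_eq_mul_div, le_div_iff₀ δ0]
    have : (#S' : ℝ) ≤ Y := by simpa using (Nat.cast_le (α := ℝ)).2 (card_le_card (hS'.trans hB))
    nlinarith
  have a3 : 1 ≤ 98304 / δ ^ 6 := (one_le_div (by positivity)).2
    ((pow_le_one₀ δ0.le δ1).trans (by norm_num))
  have a4 : ∀ m n : ℕ, m + n ≤ 5 → (#(m • S.image (g p) - n • S.image (g p)) : ℝ) ≤
      K * #(S.image (g p)) := fun m n hm => (plu n' a1 m n).trans <|
    calc _ ≤ (98304 / δ ^ 6) ^ 5 * (6 / δ * #(S.image (g p))) :=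
        mul_le_mul (pow_le_pow_right₀ a3 hm) a2 (by positivity) (by positivity)
      _ ≤ _ := by rw [← mul_assoc]; gcongr
  have a5 : #(S.image (g p) - S.image (g p)) ≤ K * #(S.image (g p)) := by
    have := a4 1 1 (by norm_num)
    rw [one_nsmul] at this
    exact_mod_cast this
  have s2 := fun j l l' => grow2 (j := j) (l := l) (l' := l') n (by rw [five]; exact a4 3 2 le_rfl) a5
  have s0 : S.Nonempty := n.of_image
  have i3 : i ≤ 54 * L := by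
    refine (Nat.pow_le_pow_iff_right one_lt_two).1 (i2.trans ?_)
    rw [mul_comm, pow_mul]
    exact Nat.pow_le_pow_left L.lt_two_pow_self.le 54
  have i4 : (2 ^ i) ^ B ≤ L ^ (54 * B) := by
    rw [pow_mul]
    exact Nat.pow_le_pow_left i2 B
  have i5 : L ^ (54 * B) ≤ Y := (Nat.pow_le_pow_right L0 (by omega)).trans hY
  have b0 : ∀ j ∈ Ico i (i * B),
      (#(U S (PR (2 ^ j) (2 * 2 ^ j))) : ℝ) ≤ γ / L * Y := fun j hj => by
    obtain ⟨j1, j2⟩ := mem_Ico.1 hj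
    obtain ⟨W, hW⟩ : ∃ W, W = 2 ^ j := ⟨_, rfl⟩
    have W1 : L ^ 53 ≤ W := hW ▸ i1.trans (Nat.pow_le_pow_right two_pos j1)
    have W2 : 2 * W ≤ L ^ (54 * B) := by
      refine le_trans ?_ i4
      rw [hW, ← pow_succ', ← pow_mul]
      exact Nat.pow_le_pow_right two_pos j2
    have W0 : 0 < W := (Nat.pow_pos L0).trans_le W1
    have W0' : (0 : ℝ) < W := by exact_mod_cast W0
    have W3 : ∀ l ∈ PR W (2 * W), l < 2 ^ (j + 2) := fun l hl => by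
      have := (mem_Ioc.1 (mem_filter.1 hl).1).2
      rw [pow_add, ← hW]
      omega
    have W4 : 32768 * (L : ℝ) ^ 12 ≤ γ ^ 8 * W :=
      calc _ ≤ (γ * L ^ 5) ^ 8 * (L * (L : ℝ) ^ 12) :=
          (by gcongr : _ ≤ L * (L : ℝ) ^ 12).trans
            (le_mul_of_one_le_left (by positivity) (one_le_pow₀ L1))
        _ = γ ^ 8 * (L : ℝ) ^ 53 := by ring
        _ ≤ _ := by gcongr; exact_mod_cast W1
    rw [← hW]
    obtain ⟨τ, hτ⟩ : ∃ τ, τ = K ^ (4 * (j + 2) + 3) := ⟨_, rfl⟩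
    have b1 := scale (PR W (2 * W)) S (fun l q => (l : ZMod (p ^ 2)) * g p q = q * g p l)
      (τ := τ) (t := (γ / L) ^ 2 * W / 2) W0 (filter_subset _ _) hS (by positivity)
      (fun l hl l' hl' h => fib2 hp hYp hS s0 (hτ ▸ s2 _ l l' (W3 l hl) (W3 l' hl')) h)
      fun l hl => cls2 hp hpL (by omega) γ0 γ1 (by linarith) W4 hl
    have b2 : 2 * W * τ * L ^ 12 ≤ Y := by
      refine le_trans ?_ hY
      have : τ ≤ (L ^ (54 * B)) ^ (11 * κ) := by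
        refine le_trans ?_ (Nat.pow_le_pow_left i4 _)
        rw [hτ, hK', ← pow_mul, ← pow_mul, ← pow_mul, ← mul_assoc, mul_comm (i * B)]
        refine Nat.pow_le_pow_right two_pos ?_
        rw [mul_comm 11, mul_assoc]
        exact Nat.mul_le_mul_left _ (by omega)
      calc _ ≤ L ^ (54 * B) * (L ^ (54 * B)) ^ (11 * κ) * L ^ 12 := by gcongr
        _ = _ := by ring
    have b3 : 2 * (W : ℝ) * τ * L ^ 12 ≤ Y := by exact_mod_cast b2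
    have b4 : 2 * (W : ℝ) * τ ≤ (γ / L) ^ 2 * Y := by
      rw [div_pow, div_mul_eq_mul_div, le_div_iff₀ (by positivity)]
      calc 2 * (W : ℝ) * τ * L ^ 2 ≤ 2 * W * τ * L ^ 2 * (γ * L ^ 5) ^ 2 :=
          le_mul_of_one_le_right (by positivity) (one_le_pow₀ L1)
        _ = γ ^ 2 * (2 * W * τ * L ^ 12) := by ring
        _ ≤ _ := by gcongr
    refine le_of_pow_le_pow_left₀ two_ne_zero (by positivity) (le_of_mul_le_mul_left (b1.trans ?_) W0')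
    nlinarith [mul_le_mul_of_nonneg_left b4 (mul_pos Y0 W0').le]
  have b5 : S ⊆ (Ico i (i * B)).biUnion fun j => U S (PR (2 ^ j) (2 * 2 ^ j)) := fun n hn => by
    obtain ⟨l, hl, hd⟩ := (mem_filter.1 (hA (hS0 hn))).2
    obtain ⟨⟨l1, l2⟩, l3⟩ := (mem_filter.1 hl).imp_left mem_Ioc.1
    have l4 := l3.two_le
    have c1 := Nat.pow_log_le_self 2 (show l - 1 ≠ 0 by omega)
    have c2 := Nat.lt_pow_succ_log_self one_lt_two (l - 1)
    rw [← pow_mul] at l2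
    exact mem_biUnion.2 ⟨Nat.log 2 (l - 1), mem_Ico.2
      ⟨Nat.le_log_of_pow_le one_lt_two (by omega),
        (Nat.pow_lt_pow_iff_right one_lt_two).1 (by omega)⟩,
      mem_filter.2 ⟨hn, l, mem_filter.2 ⟨mem_Ioc.2 ⟨by omega, by omega⟩, l3⟩, hd⟩⟩
  have b6 := (Nat.cast_le (α := ℝ)).2 ((card_le_card b5).trans card_biUnion_le)
  push_cast at b6
  have b7 := MP_71ac24_nt.H14.bsg_sum_le _ _ _ b0
  have b8 : (#(Ico i (i * B)) : ℝ) ≤ 54 * L * B := by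
    rw [Nat.card_Ico]
    exact_mod_cast (Nat.sub_le _ _).trans (Nat.mul_le_mul_right B i3)
  have b9 : (#(Ico i (i * B)) : ℝ) * (γ / L * Y) ≤ δ * Y / 12 :=
    (mul_le_mul_of_nonneg_right b8 (by positivity)).trans (le_of_eq (by rw [hγ]; field_simp; ring))
  nlinarith [mul_pos δ0 Y0]

theorem mert2 : ∃ C : ℝ, 0 < C ∧ ∀ a B : ℕ, 2 ≤ a → 1 ≤ B →
    |MP_fc7299_nt.AP.lam (PR a (a ^ B)) - Real.log B| ≤ C := by
  obtain ⟨C, C0, hC⟩ := MP_48b1c3_nt.H54.mertens2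
  refine ⟨2 * C, by linarith, fun a B ha hB => ?_⟩
  have e : ∀ y : ℕ, ∑ p ∈ MP_48b1c3_nt.H54.PI 0 y, (1 : ℝ) / p = ∑ l ∈ PR 0 y, 1 / (l : ℝ) :=
    fun y => by simp [MP_48b1c3_nt.H54.PI, PR]
  have h : a ≤ a ^ B := Nat.le_self_pow (by omega) a
  have ha' : (2 : ℝ) ≤ a := by exact_mod_cast ha
  have h1 := abs_le.1 (hC a ha')
  have h2 := abs_le.1 (hC (a ^ B : ℕ) (by exact_mod_cast ha.trans h))
  rw [e] at h1 h2
  have h3 : ∑ l ∈ PR 0 a, 1 / (l : ℝ) + ∑ l ∈ PR a (a ^ B), 1 / (l : ℝ) =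
      ∑ l ∈ PR 0 (a ^ B), 1 / (l : ℝ) := by
    simp only [PR, sum_filter]
    exact sum_Ioc_consecutive _ (Nat.zero_le a) h
  rw [Nat.cast_pow, Real.log_pow, Real.log_mul (by positivity)
    (Real.log_pos (by linarith)).ne'] at h2
  rw [MP_fc7299_nt.AP.lam, abs_le]
  constructor <;> linarith [h1.1, h1.2, h2.1, h2.2]

theorem conv (p Y : ℕ) :
    ({v : ℕ × ℕ | 1 ≤ v.1 ∧ v.1 ≤ Y ∧ 1 ≤ v.2 ∧ v.2 ≤ Y ∧ ∃ a : ℤ, a * v.2 ≡ v.1 [ZMOD p] ∧
      (1 + a) ^ p ≡ 1 + a ^ p [ZMOD (p : ℤ) ^ 2]}.ncard : ℝ) ≤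
      ∑ a ∈ Ioc 0 Y, (#{b ∈ Ioc 0 Y | g p (a + b) = g p a + g p b} : ℝ) := by
  rw [← MP_71ac24_nt.H14.bsg_card_prod, ← Set.ncard_coe_finset]
  refine Nat.cast_le.2 (Set.ncard_le_ncard (fun v hv => ?_) (finite_toSet _))
  obtain ⟨b1, b2, b3, b4, a, c1, c2⟩ := hv
  refine mem_coe.2 (mem_filter.2 ⟨mem_product.2 ⟨mem_Ioc.2 ⟨b1, b2⟩, mem_Ioc.2 ⟨b3, b4⟩⟩, ?_⟩)
  have d1 := lift c1.dvd
  have d2 := lift (c1.add_right v.2).dvd
  have d3 := (zero_iff p _).2 c2.dvd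
  push_cast at d1 d2 d3
  simp only [g, Nat.cast_add]
  rw [d1, d2, show (a * v.2 + v.2 : ZMod (p ^ 2)) = (1 + a) * v.2 by ring, mul_pow, mul_pow,
    ← sub_eq_zero.1 d3]
  ring

end Pool.Agent.MP_75c3b6_nt.SH
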