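import Pool.Agent.MP_75c3b6_nt.SH.C

/-! Solutions of small height of the binomial congruence: the sieve and the final count. -/

namespace Pool.Agent.MP_75c3b6_nt.SH

open Finset Filter Pointwise MP_fc7299_nt

theorem em0 (S : Finset ℕ) : 0 ≤ AP.em S ∧ AP.em S ≤ 1 := by
  unfold AP.em
  split_ifs <;> norm_num

theorem em1 (S : Finset ℕ) : |AP.em S| ≤ 1 := abs_le.2 ⟨by linarith [(em0 S).1], (em0 S).2⟩

theorem ok {Q : Finset ℕ} (hQ : ∀ q ∈ Q, q.Prime) : AP.Ok (∏ q ∈ Q, q) 1 Q :=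
  ⟨prod_pos fun q hq => (hQ q hq).pos, fun q hq => ⟨hQ q hq, (hQ q hq).not_dvd_one⟩, dvd_rfl⟩

theorem mean {Q : Finset ℕ} (hQ : ∀ q ∈ Q, 2 ≤ q) (k : ℕ) {v : ℝ} (h1 : Real.exp (-AP.lam Q) ≤ v)
    (h2 : 4 * (1 / 2) ^ (2 * k) * Real.exp (17 * AP.lam Q) ≤ v) :
    0 ≤ AP.EP Q (AP.tr (2 * k) AP.em) ∧ AP.EP Q (AP.tr (2 * k) AP.em) ≤ 2 * v ∧
      AP.EP Q (fun S => AP.tr (2 * k) AP.em S ^ 2) ≤ 2 * v + 2 := by
  have a2 := (AP.tr2 AP.tr1 (2 * k) AP.em Q hQ em1).trans h2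
  have a4 : AP.V Q ≤ Real.exp (-AP.lam Q) := by
    rw [AP.lam, ← sum_neg_distrib, Real.exp_sum]
    exact prod_le_prod (fun q hq => AP.one_sub_nonneg (hQ q hq))
      fun q _ => Real.one_sub_le_exp_neg _
  refine ⟨?_, ?_, ?_⟩
  · rw [← AP.EP_const Q 0]
    exact AP.EP_mono hQ fun S _ => (em0 S).1.trans (AP.bon k S).2.1
  · refine le_trans ?_ (show AP.V Q + AP.EP Q (fun S => (AP.tr (2 * k) AP.em S - AP.em S) ^ 2) ≤
      2 * v by linarith)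
    rw [← AP.EP_em, ← AP.EP_add]
    exact AP.EP_mono hQ fun S _ => by
      linarith [(AP.bon (2 * k) S).2.2, le_abs_self (AP.tr (2 * k) AP.em S - AP.em S)]
  · refine le_trans ?_ (show 2 * AP.EP Q (fun S => (AP.tr (2 * k) AP.em S - AP.em S) ^ 2) +
      AP.EP Q (fun _ => 2) ≤ 2 * v + 2 by rw [AP.EP_const]; linarith)
    rw [← AP.EP_smul, ← AP.EP_add]
    exact AP.EP_mono hQ fun S _ => by
      nlinarith [em0 S, sq_nonneg (AP.tr (2 * k) AP.em S - 2 * AP.em S)]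

theorem shift (Y : ℕ) (s : Finset ℕ) (hs : s ⊆ Ioc 0 Y) (φ : ℕ → ℝ) (h0 : ∀ t, 0 ≤ φ t)
    (h1 : ∀ t, t + 1 ∈ s → 1 ≤ φ t) : (#s : ℝ) ≤ ∑ t ∈ range Y, φ t := by
  have : s ⊆ ((range Y).filter fun t => t + 1 ∈ s).image (· + 1) := fun n hn => by
    have := mem_Ioc.1 (hs hn)
    have e : n - 1 + 1 = n := by omega
    exact mem_image.2 ⟨n - 1, mem_filter.2 ⟨mem_range.2 (by omega), e ▸ hn⟩, e⟩
  refine (Nat.cast_le.2 ((card_le_card this).trans card_image_le)).trans ?_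
  refine le_trans ?_ (sum_le_sum_of_subset_of_nonneg (filter_subset (fun t => t + 1 ∈ s) _)
    fun t _ _ => h0 t)
  simpa using MP_71ac24_nt.H14.bsg_le_sum _ φ 1 fun t ht => h1 t (mem_filter.1 ht).2

theorem free {Q : Finset ℕ} {c t : ℕ} (k : ℕ) (h : ¬ ∃ l ∈ Q, l ∣ c + t) :
    1 ≤ AP.tr (2 * k) AP.em (AP.B Q 1 c t) := by
  refine le_trans (le_of_eq ?_) (AP.bon k _).2.1
  rw [AP.em, if_pos]
  exact filter_eq_empty_iff.2 fun q hq hd => h ⟨q, hq, by rwa [one_mul] at hd⟩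

theorem triple {Q : Finset ℕ} (hQ : ∀ q ∈ Q, q.Prime) (Y k : ℕ) {y v θ : ℝ} (hy : 1 ≤ y)
    (h : ∀ q ∈ Q, (q : ℝ) ≤ y) (h1 : Real.exp (-AP.lam Q) ≤ v)
    (h2 : 4 * (1 / 2) ^ (2 * k) * Real.exp (17 * AP.lam Q) ≤ v) (θ0 : 0 ≤ θ)
    (hθ : ∀ q ∈ Q, 1 / ((q : ℝ) - 1) ≤ θ) (h3 : θ * (2 * v + 2) ≤ v ^ 2) (v1 : v ≤ 1)
    (h4 : 2 * ((2 * y ^ 2) ^ (2 * k) * (2 * y ^ 2) ^ (2 * k)) ≤ Y * v ^ 2) :
    ∑ a ∈ Z Y Q, (#{b ∈ Z Y Q | ¬ ∃ l ∈ Q, l ∣ a + b} : ℝ) ≤ 18 * v ^ 3 * (Y : ℝ) ^ 2 := by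
  obtain ⟨m0, m1, m2⟩ := mean (ok hQ).two k h1 h2
  have v0 : 0 < v := (Real.exp_pos _).trans_le h1
  have Y0 : (0 : ℝ) ≤ Y := Y.cast_nonneg
  have t0 : ∀ S, 0 ≤ AP.tr (2 * k) AP.em S := fun S => (em0 S).1.trans (AP.bon k S).2.1
  have sh := fun c => AP.tr3 AP.sh3 _ 1 c (2 * k) AP.em Q y (ok hQ) hy h em1
  have a1 : (#(Z Y Q) : ℝ) ≤ 3 * v * Y := by
    have b1 := (abs_le.1 (AP.sh1 _ Y _ _ (ok hQ).1 (sh 1))).2
    rw [AP.one AP.ind AP.pri _ 1 1 Q (AP.tr (2 * k) AP.em) (ok hQ)] at b1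
    have b2 := shift Y (Z Y Q) (filter_subset _ _) _ (fun t => t0 (AP.B Q 1 1 t))
      fun t ht => free k (by rw [add_comm]; exact (mem_filter.1 ht).2)
    have b3 : (1 : ℝ) ≤ (2 * y ^ 2) ^ (2 * k) := one_le_pow₀ (by nlinarith)
    have b4 : Y * v ^ 2 ≤ Y * v := mul_le_mul_of_nonneg_left (by nlinarith) Y0
    nlinarith [mul_le_mul_of_nonneg_left m1 Y0]
  have a2 : ∀ a ∈ Z Y Q, (#{b ∈ Z Y Q | ¬ ∃ l ∈ Q, l ∣ a + b} : ℝ) ≤ 6 * v ^ 2 * Y := fun a ha => by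
    have b1 := (abs_le.1 (AP.sh1 _ Y _ _ (ok hQ).1
      (AP.sh2 _ _ _ _ _ (ok hQ).1 (sh 1) (sh (a + 1))))).2
    have b0 := AP.two AP.ind AP.pri (AP.one AP.ind AP.pri) _ 1 1 (a + 1) Q (AP.tr (2 * k) AP.em) θ
      (ok hQ) θ0 fun q hq => ⟨fun e => (mem_filter.1 ha).2 ⟨q, hq, by
        simpa using (Nat.modEq_iff_dvd' (by omega)).1 e⟩, hθ q hq⟩
    have b2 := shift Y {b ∈ Z Y Q | ¬ ∃ l ∈ Q, l ∣ a + b}
      ((filter_subset _ _).trans (filter_subset _ _)) _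
      (fun t => mul_nonneg (t0 (AP.B Q 1 1 t)) (t0 (AP.B Q 1 (a + 1) t))) fun t ht =>
        one_le_mul_of_one_le_of_one_le
          (free k (by rw [add_comm]; exact (mem_filter.1 (mem_filter.1 ht).1).2))
          (free k (by rw [add_assoc, add_comm 1]; exact (mem_filter.1 ht).2))
    have b3 := pow_le_pow_left₀ m0 m1 2
    have b4 := mul_le_mul_of_nonneg_left m2 θ0
    nlinarith [mul_le_mul_of_nonneg_left (b0.trans (add_le_add b3 (b4.trans h3))) Y0]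
  calc _ ≤ _ := MP_71ac24_nt.H14.bsg_sum_le _ _ _ a2
    _ ≤ 3 * v * Y * (6 * v ^ 2 * Y) := mul_le_mul_of_nonneg_right a1 (by positivity)
    _ = _ := by ring

theorem cover (P : Finset ℕ) (Y : ℕ) (r : ℕ → ℕ → Prop) [∀ a b, Decidable (r a b)] :
    ∑ a ∈ Ioc 0 Y, (#{b ∈ Ioc 0 Y | r a b} : ℝ) ≤
      ∑ a ∈ Z Y P, (#{b ∈ Z Y P | ¬ ∃ l ∈ P, l ∣ a + b} : ℝ) +
      ∑ a ∈ U (Ioc 0 Y) P, (#{b ∈ Ioc 0 Y | r a b} : ℝ) +
      ∑ a ∈ U (Ioc 0 Y) P, (#{b ∈ Ioc 0 Y | r b a} : ℝ) +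
      ∑ a ∈ U (Ioc 0 (2 * Y)) P, (#{b ∈ Ioc 0 Y | b < a ∧ r (a - b) b} : ℝ) := by
  simp only [← MP_71ac24_nt.H14.bsg_card_prod]
  norm_cast
  refine le_trans (card_le_card (fun v hv => ?_)) ((card_union_le _ _).trans (add_le_add
    ((card_union_le _ _).trans (add_le_add (card_union_le _ _) (card_image_le (f := Prod.swap))))
    (card_image_le (f := fun v : ℕ × ℕ => (v.1 - v.2, v.2)))))
  obtain ⟨h1, h2⟩ := mem_filter.1 hv
  obtain ⟨a, b⟩ := mem_product.1 h1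
  by_cases c1 : ∃ l ∈ P, l ∣ v.1
  · exact mem_union_left _ (mem_union_left _ (mem_union_right _
      (mem_filter.2 ⟨mem_product.2 ⟨mem_filter.2 ⟨a, c1⟩, b⟩, h2⟩)))
  by_cases c2 : ∃ l ∈ P, l ∣ v.2
  · exact mem_union_left _ (mem_union_right _ (mem_image.2 ⟨v.swap,
      mem_filter.2 ⟨mem_product.2 ⟨mem_filter.2 ⟨b, c2⟩, a⟩, h2⟩, rfl⟩))
  by_cases c3 : ∃ l ∈ P, l ∣ v.1 + v.2
  · have a' := mem_Ioc.1 a
    have b' := mem_Ioc.1 b
    refine mem_union_right _ (mem_image.2 ⟨(v.1 + v.2, v.2), mem_filter.2 ⟨mem_product.2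
      ⟨mem_filter.2 ⟨mem_Ioc.2 ⟨by omega, by omega⟩, c3⟩, b⟩, by simp only; omega, ?_⟩, by simp⟩)
    simpa using h2
  · exact mem_union_left _ (mem_union_left _ (mem_union_left _ (mem_filter.2
      ⟨mem_product.2 ⟨mem_filter.2 ⟨a, c1⟩, mem_filter.2 ⟨b, c2⟩⟩, c3⟩)))

theorem core3 {C : ℝ} {d n B p L Y : ℕ}
    (hC : ∀ a B : ℕ, 2 ≤ a → 1 ≤ B → |AP.lam (PR a (a ^ B)) - Real.log B| ≤ C)
    (hd : Real.exp C ≤ 2 ^ d) (C0 : 0 ≤ C) (hn : d + 1 ≤ n) (B1 : 2 ^ d ≤ B) (B2 : B ≤ 2 ^ n)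
    (hp : p.Prime) (hL : 32768 ≤ L) (L1 : 2 ^ n ≤ 2 * L) (hpL : p < 2 ^ L)
    (hY : L ^ (115000 * n * B) ≤ Y) (hYp : 2 * Y < p) :
    ∑ a ∈ Ioc 0 Y, (#{b ∈ Ioc 0 Y | g p (a + b) = g p a + g p b} : ℝ) ≤
      (18 * (2 ^ d / B) ^ 3 + 12 * (1 / 2 ^ n) ^ 3) * (Y : ℝ) ^ 2 := by
  have L0 : 0 < L := by omega
  have L2 : (32768 : ℝ) ≤ L := by exact_mod_cast hL
  have B3 : 1 ≤ B := Nat.one_le_two_pow.trans B1
  have B0 : (0 : ℝ) < B := by exact_mod_cast B3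
  have B4 : (B : ℝ) ≤ 2 ^ n := by exact_mod_cast B2
  have L3 : (2 : ℝ) ^ n ≤ 2 * L := by exact_mod_cast L1
  obtain ⟨i, hi⟩ : ∃ i, i = Nat.log 2 (L ^ 53) + 1 := ⟨_, rfl⟩
  have i1 : L ^ 53 < 2 ^ i := hi ▸ Nat.lt_pow_succ_log_self one_lt_two _
  have i2 : 2 ^ i ≤ L ^ 54 := by
    have := Nat.pow_log_le_self 2 (Nat.pow_pos (n := 53) L0).ne'
    rw [hi, pow_succ, pow_succ L 53]
    exact Nat.mul_le_mul this (by omega)
  have i4 : (2 ^ i) ^ B ≤ L ^ (54 * B) := by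
    rw [pow_mul]
    exact Nat.pow_le_pow_left i2 B
  have nB : n ≤ n * B := Nat.le_mul_of_pos_right n B3
  have nB' : B ≤ n * B := Nat.le_mul_of_pos_left B (by omega)
  have hK : (98304 / ((1 / 2 ^ n) ^ 3 : ℝ) ^ 6) ^ 5 * (6 / (1 / 2 ^ n) ^ 3) ≤ (2 ^ (179 * n) : ℕ) :=
    calc _ = 98304 ^ 5 * 6 * ((2 : ℝ) ^ n) ^ 93 := by field_simp
      _ ≤ ((2 : ℝ) ^ n) ^ 86 * ((2 : ℝ) ^ n) ^ 93 := by
        gcongr
        exact le_trans (by norm_num) (pow_le_pow_left₀ zero_le_two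
          (le_self_pow₀ one_le_two (by omega)) 86)
      _ = _ := by push_cast; ring
  have d1 : ((1 / 2 ^ n) ^ 3 : ℝ) ≤ 1 :=
    pow_le_one₀ (by positivity) ((div_le_one (by positivity)).2 (one_le_pow₀ one_le_two))
  have hγ : 1 ≤ ((1 / 2 ^ n) ^ 3 : ℝ) / (648 * B) * L ^ 5 := by
    rw [div_mul_eq_mul_div, one_le_div (by positivity), div_pow, one_pow, div_mul_eq_mul_div, one_mul,
      le_div_iff₀ (by positivity)]
    calc 648 * (B : ℝ) * (2 ^ n) ^ 3 ≤ 648 * (2 * (L : ℝ)) * (2 * (L : ℝ)) ^ 3 := by gcongr; linarith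
      _ = 10368 * (L : ℝ) ^ 4 := by ring
      _ ≤ L * (L : ℝ) ^ 4 := by gcongr; linarith
      _ = _ := by ring
  have hY' : L ^ (54 * B + 54 * B * (11 * (179 * n)) + 12) ≤ 2 * Y :=
    ((Nat.pow_le_pow_right L0 (by nlinarith)).trans hY).trans (by omega)
  have inj : Set.InjOn (g p) (Ioc 0 Y : Finset ℕ) := fun x hx y hy e =>
    eq_of hp (by have := (mem_Ioc.1 hx).2; omega) (by have := (mem_Ioc.1 hy).2; omega)
      ((dvd_pow_self _ two_ne_zero).trans ((zero_iff p _).1 (by push_cast; exact sub_eq_zero.2 e)))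
  have nf := @nofac _ _ _ _ _ _ _ _ (by positivity) d1 hK B3 rfl hp hL hγ hpL i1.le i2 hY' hYp
  have sub : Ioc 0 Y ⊆ Ioc 0 (2 * Y) := Ioc_subset_Ioc_right (by omega)
  have box : ∀ a ∈ U (Ioc 0 Y) (PR (2 ^ i) ((2 ^ i) ^ B)), ∀ b ∈ Ioc 0 Y, a + b ∈ Ioc 0 (2 * Y) :=
    fun a ha b hb => by
    have := mem_Ioc.1 (mem_filter.1 ha).1
    have := mem_Ioc.1 hb
    exact mem_Ioc.2 ⟨by omega, by omega⟩
  have n1 := nf (g p) (· + ·) (fun a b => g p (a + b) = g p a + g p b) (A := U (Ioc 0 Y) _)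
    (filter_subset_filter _ sub) sub
    (fun a ha b hb h => ⟨box a ha b hb, h⟩) (fun a b b' _ _ e => by omega)
    (fun a a' b _ _ e => by omega) inj
  have n2 := nf (g p) (· + ·) (fun a b => g p (b + a) = g p b + g p a) (A := U (Ioc 0 Y) _)
    (filter_subset_filter _ sub) sub
    (fun a ha b hb h => ⟨box a ha b hb, by rw [add_comm a, h, add_comm]⟩)
    (fun a b b' _ _ e => by omega) (fun a a' b _ _ e => by omega) inj
  have n3 := nf (fun b => -g p b) (· - ·) (fun a b => b < a ∧ g p (a - b + b) = g p (a - b) + g p b)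
    Subset.rfl sub (fun a ha b hb h => ⟨by
      have := mem_Ioc.1 (mem_filter.1 ha).1
      exact mem_Ioc.2 ⟨by omega, by omega⟩, by
      have := h.2
      rw [Nat.sub_add_cancel h.1.le] at this
      rw [this]
      ring⟩)
    (fun a b b' h h' e => by omega) (fun a a' b h h' e => by omega)
    fun x hx y hy e => inj hx hy (neg_injective e)
  have a7 := abs_le.1 (hC (2 ^ i) B (by
    rw [hi, pow_succ]; have := Nat.pow_pos (n := Nat.log 2 (L ^ 53)) two_pos; omega) B3)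
  have v1 : (2 : ℝ) ^ d / B ≤ 1 := (div_le_one B0).2 (by exact_mod_cast B1)
  have v2 : 1 / (2 * (L : ℝ)) ≤ 2 ^ d / B :=
    div_le_div₀ (by positivity) (one_le_pow₀ one_le_two) B0 (by linarith)
  have v3 : 1 ≤ (2 ^ d / B : ℝ) ^ 2 * (4 * L ^ 2) := by
    rw [← div_le_iff₀ (by positivity)]
    refine le_trans (le_of_eq ?_) (pow_le_pow_left₀ (by positivity) v2 2)
    field_simp
    norm_num
  have t := triple (Q := PR (2 ^ i) ((2 ^ i) ^ B)) (fun l hl => (mem_filter.1 hl).2) Y (19 * n)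
    (y := (L ^ (54 * B) : ℕ)) (v := 2 ^ d / B) (θ := 1 / (L : ℝ) ^ 53)
    (by exact_mod_cast Nat.pow_pos L0)
    (fun q hq => Nat.cast_le.2 ((mem_Ioc.1 (mem_filter.1 hq).1).2.trans i4)) ?_ ?_ (by positivity)
    (fun q hq => ?_) ?_ v1 ?_
  · have := cover (PR (2 ^ i) ((2 ^ i) ^ B)) Y fun a b => g p (a + b) = g p a + g p b
    push_cast at n1 n2 n3
    linarith
  · refine (Real.exp_le_exp.2 (show _ ≤ C - Real.log B by linarith [a7.1])).trans ?_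
    rw [Real.exp_sub, Real.exp_log B0]
    gcongr
  · have c1 : Real.exp (17 * AP.lam (PR (2 ^ i) ((2 ^ i) ^ B))) ≤ (B * Real.exp C) ^ 17 := by
      rw [← Real.exp_log B0, ← Real.exp_add, ← Real.exp_nat_mul]
      exact Real.exp_le_exp.2 (by push_cast; linarith [a7.2])
    have c2 : Real.exp C ≤ 2 ^ n := hd.trans (pow_le_pow_right₀ one_le_two (by omega))
    have c3 : (2 : ℝ) ≤ 2 ^ n := le_self_pow₀ one_le_two (by omega)
    rw [one_div, inv_pow, mul_right_comm, ← div_eq_mul_inv, div_le_div_iff₀ (by positivity) B0]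
    calc _ ≤ (2 ^ n) ^ 2 * ((2 : ℝ) ^ n * 2 ^ n) ^ 17 * 2 ^ n := by
          gcongr
          · nlinarith
          · exact c1.trans (by gcongr)
      _ = 1 * 2 ^ (37 * n) := by ring
      _ ≤ _ := mul_le_mul (one_le_pow₀ one_le_two) (pow_le_pow_right₀ one_le_two (by omega))
        (by positivity) (by positivity)
  · refine one_div_le_one_div_of_le (by positivity) ?_
    have : L ^ 53 + 1 ≤ q := by have := (mem_Ioc.1 (mem_filter.1 hq).1).1; omega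
    have : (L : ℝ) ^ 53 + 1 ≤ q := by exact_mod_cast this
    linarith
  · rw [one_div_mul_eq_div, div_le_iff₀ (by positivity)]
    have c1 : (L : ℝ) ^ 3 ≤ L ^ 53 := pow_le_pow_right₀ (by linarith) (by norm_num)
    have c2 : 4 * (4 * (L : ℝ) ^ 2) ≤ L ^ 53 := by nlinarith [sq_nonneg (L : ℝ)]
    nlinarith [mul_le_mul_of_nonneg_left c2 (sq_nonneg (2 ^ d / B : ℝ))]
  · have c1 : (2 * (L ^ (54 * B)) ^ 2) ^ (2 * (19 * n)) * (2 * (L ^ (54 * B)) ^ 2) ^ (2 * (19 * n)) *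
        L ^ 3 ≤ Y := by
      refine le_trans ?_ ((Nat.pow_le_pow_right L0 (show (108 * B + 1) * (76 * n) + 3 ≤ _ by
        nlinarith)).trans hY)
      calc _ ≤ (L * (L ^ (54 * B)) ^ 2) ^ (2 * (19 * n)) * (L * (L ^ (54 * B)) ^ 2) ^ (2 * (19 * n)) *
            L ^ 3 := by gcongr <;> omega
        _ = _ := by ring
    obtain ⟨x, hx⟩ : ∃ x, x = (2 * (L ^ (54 * B)) ^ 2) ^ (2 * (19 * n)) := ⟨_, rfl⟩
    have e : (2 * ((L ^ (54 * B) : ℕ) : ℝ) ^ 2) ^ (2 * (19 * n)) = x := by rw [hx]; norm_cast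
    rw [← hx] at c1
    rw [e]
    have c2 : (x : ℝ) * x * L ^ 3 ≤ Y := by exact_mod_cast c1
    have c3 : 2 * (4 * (L : ℝ) ^ 2) ≤ L ^ 3 := by nlinarith [sq_nonneg (L : ℝ)]
    calc 2 * ((x : ℝ) * x) ≤ 2 * (x * x) * ((2 ^ d / B : ℝ) ^ 2 * (4 * L ^ 2)) :=
        le_mul_of_one_le_right (by positivity) v3
      _ = x * x * (2 * (4 * L ^ 2)) * (2 ^ d / B : ℝ) ^ 2 := by ring
      _ ≤ _ := by gcongr; exact (by gcongr : _ ≤ (x : ℝ) * x * L ^ 3).trans c2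

theorem main3 : ∃ C : ℝ, ∀ (p Y : ℕ) (u : ℝ), p.Prime → 2 ≤ u → Real.log p ^ u ≤ Y → 2 * Y < p →
    ({v : ℕ × ℕ | 1 ≤ v.1 ∧ v.1 ≤ Y ∧ 1 ≤ v.2 ∧ v.2 ≤ Y ∧ ∃ a : ℤ, a * v.2 ≡ v.1 [ZMOD p] ∧
      (1 + a) ^ p ≡ 1 + a ^ p [ZMOD (p : ℤ) ^ 2]}.ncard : ℝ) ≤
      C * (Y : ℝ) ^ 2 * (Real.log u / u) ^ 3 := by
  obtain ⟨C, C0, hC⟩ := mert2
  obtain ⟨d, hd⟩ := pow_unbounded_of_one_lt (Real.exp C) one_lt_two
  obtain ⟨u₀, hu₀⟩ := eventually_atTop.1 ((Real.isLittleO_log_id_atTop.bound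
    (show 0 < 1 / (690000 * 2 ^ d : ℝ) by positivity)).and ((eventually_ge_atTop (2 ^ (d + 1) : ℝ)).and
    (eventually_ge_atTop (10 ^ 6 : ℝ))))
  have g1 := Real.log_two_gt_d9
  have g2 := Real.log_two_lt_d9
  refine ⟨(2 * u₀) ^ 3 ⊔ (18 * (2 ^ d * 1380000) ^ 3 + 12), fun p Y u hp h2 hY hYp =>
    (conv p Y).trans ?_⟩
  have lu : Real.log 2 ≤ Real.log u := Real.log_le_log two_pos h2
  have w0 : 0 < Real.log u / u := div_pos (by linarith) (by linarith)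
  rw [mul_right_comm]
  rcases le_total u u₀ with hu | hu
  · refine (MP_71ac24_nt.H14.bsg_sum_le _ _ (Y : ℝ) fun a _ => ?_).trans ?_
    · simpa using MP_71ac24_nt.H14.bsg_card_filter_le (Ioc 0 Y)
        fun b => g p (a + b) = g p a + g p b
    · rw [Nat.card_Ioc, tsub_zero, ← sq]
      refine le_mul_of_one_le_left (sq_nonneg _) (le_trans ?_
        (mul_le_mul_of_nonneg_right le_sup_left (by positivity)))
      rw [← mul_pow]
      refine one_le_pow₀ ?_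
      rw [← mul_div_assoc, one_le_div (by linarith)]
      nlinarith
  obtain ⟨u1, u2, u3⟩ := hu₀ u hu
  have u0 : 0 < u := by linarith
  rw [id, Real.norm_of_nonneg u0.le, Real.norm_of_nonneg (by linarith), one_div_mul_eq_div,
    le_div_iff₀ (by positivity)] at u1
  have p2 : (2 : ℝ) ≤ p := by exact_mod_cast hp.two_le
  have lp0 : 0 < Real.log p := Real.log_pos (by linarith)
  have Y0 : (0 : ℝ) < Y := (Real.rpow_pos_of_pos lp0 u).trans_le hY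
  have Y1 : 0 < Y := by exact_mod_cast Y0
  have p3 : (3 : ℝ) ≤ p := by exact_mod_cast (by omega : 3 ≤ p)
  have lY : u * Real.log (Real.log p) ≤ Real.log p := by
    rw [← Real.log_rpow lp0]
    exact Real.log_le_log (Real.rpow_pos_of_pos lp0 u)
      (hY.trans (by exact_mod_cast (by omega : Y ≤ p)))
  have l3 : 1.09 ≤ Real.log p := by
    have a : Real.log (3 / 2 * 2) ≤ Real.log p := Real.log_le_log (by norm_num) (by linarith)
    have b := Real.le_log_one_add_of_nonneg (x := 1 / 2) (by norm_num)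
    rw [Real.log_mul (by norm_num) (by norm_num)] at a
    norm_num at b
    linarith
  have ll : 0.08 ≤ Real.log (Real.log p) := by
    have := Real.one_sub_inv_le_log_of_pos (x := Real.log p) (by linarith)
    have : (Real.log p)⁻¹ ≤ 0.92 := inv_le_of_inv_le₀ (by norm_num) (by norm_num; linarith)
    linarith
  have l4 : 80000 ≤ Real.log p := by nlinarith
  have l5 : 1 ≤ Real.log (Real.log p) :=
    (Real.le_log_iff_exp_le lp0).2 (by linarith [Real.exp_one_lt_d9])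
  have l6 : u ≤ Real.log p := by nlinarith
  have a2 : (Nat.log 2 p : ℝ) * Real.log 2 ≤ Real.log p := by
    rw [← Real.log_pow]
    exact Real.log_le_log (by positivity) (by exact_mod_cast Nat.pow_log_le_self 2 hp.ne_zero)
  have a3 : Real.log p ≤ (Nat.log 2 p + 1 : ℕ) := by
    have := Real.log_le_log (by linarith) (show (p : ℝ) ≤ 2 ^ (Nat.log 2 p + 1) by
      exact_mod_cast (Nat.lt_pow_succ_log_self one_lt_two p).le)
    rw [Real.log_pow] at this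
    nlinarith [(Nat.log 2 p + 1).cast_nonneg (α := ℝ)]
  have a5 : ((Nat.log 2 p + 1 : ℕ) : ℝ) ≤ Real.log p ^ 2 := by
    have b : 0.69 * (Nat.log 2 p : ℝ) ≤ Real.log p := by
      nlinarith [(Nat.log 2 p).cast_nonneg (α := ℝ)]
    push_cast
    nlinarith
  have a6 : p < 2 ^ (Nat.log 2 p + 1) := Nat.lt_pow_succ_log_self one_lt_two p
  generalize Nat.log 2 p + 1 = L at a3 a5 a6
  obtain ⟨m, m1, m2⟩ := exists_nat_pow_near (x := u) (by linarith) one_lt_two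
  have m3 : d + 1 ≤ m + 1 := (pow_le_pow_iff_right₀ (one_lt_two (α := ℝ))).1 (u2.trans m2.le)
  have l1 : 1 ≤ Real.log u := (Real.le_log_iff_exp_le u0).2 (by linarith [Real.exp_one_lt_d9])
  have m4 : ((m + 1 : ℕ) : ℝ) ≤ 3 * Real.log u := by
    have := Real.log_le_log (by positivity) m1
    rw [Real.log_pow] at this
    push_cast
    nlinarith [m.cast_nonneg (α := ℝ)]
  have m5 : 2 ^ (m + 1) ≤ 2 * L := by
    have : (2 : ℝ) ^ (m + 1) ≤ 2 * L := by rw [pow_succ]; linarith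
    exact_mod_cast this
  have n0 : (1 : ℝ) ≤ (m + 1 : ℕ) := by exact_mod_cast Nat.succ_pos m
  generalize m + 1 = n at m2 m3 m4 m5 n0
  obtain ⟨B, hB⟩ : ∃ B, B = ⌊u / (230000 * n)⌋₊ := ⟨_, rfl⟩
  have B1 : (B : ℝ) ≤ u / (230000 * n) := hB ▸ Nat.floor_le (by positivity)
  have B2 : u / (230000 * n) < B + 1 := hB ▸ Nat.lt_floor_add_one _
  have B3 : 2 ^ d ≤ B := hB ▸ Nat.le_floor (by
    rw [le_div_iff₀ (by positivity)]
    push_cast
    nlinarith [mul_le_mul_of_nonneg_left m4 (show (0 : ℝ) ≤ 2 ^ d by positivity)])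
  have B4 : (1 : ℝ) ≤ B := by exact_mod_cast Nat.one_le_two_pow.trans B3
  rw [le_div_iff₀ (by positivity)] at B1
  rw [div_lt_iff₀ (by positivity)] at B2
  have B5 : B ≤ 2 ^ n := by
    have : (B : ℝ) ≤ 2 ^ n := by nlinarith
    exact_mod_cast this
  have a7 : L ^ (115000 * n * B) ≤ Y := by
    have : (Real.log p ^ 2) ^ (115000 * n * B) ≤ Real.log p ^ u := by
      rw [← pow_mul, ← Real.rpow_natCast]
      refine Real.rpow_le_rpow_of_exponent_le (by linarith) ?_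
      push_cast
      linarith
    exact_mod_cast ((pow_le_pow_left₀ (by positivity) a5 _).trans this).trans hY
  refine (core3 hC hd.le C0.le m3 B3 B5 hp (by exact_mod_cast (show (32768 : ℝ) ≤ L by linarith))
    m5 a6 a7 hYp).trans (mul_le_mul_of_nonneg_right (le_trans ?_
      (mul_le_mul_of_nonneg_right le_sup_right (by positivity))) (sq_nonneg _))
  have c1 : (2 : ℝ) ^ d / B ≤ 2 ^ d * 1380000 * (Real.log u / u) := by
    rw [mul_assoc, div_eq_mul_one_div]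
    gcongr
    rw [← mul_div_assoc, div_le_div_iff₀ (by linarith) u0]
    nlinarith [mul_le_mul_of_nonneg_left m4 (show (0 : ℝ) ≤ B by positivity)]
  have c2 : 1 / (2 : ℝ) ^ n ≤ Real.log u / u := div_le_div₀ (by linarith) l1 u0 m2.le
  rw [add_mul, mul_assoc, ← mul_pow]
  gcongr

end Pool.Agent.MP_75c3b6_nt.SH
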